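import Pool.Agent.V7H67.LL.Perm
import Pool.Agent.H550R2.Iso.Machine

/-!
# A polynomial-time permutation whose labellings know a language in polynomial space
-/

namespace Pool.Agent.V7H67.LL

open Pool.Agent.NPC Pool.Agent.NPC.PIso

/-! ### Headers of constant length -/

/-- a header of length `K` -/
def hd (K k : ℕ) : List Bool := (List.range K).map fun i => decide (i = k)

theorem hd_length (K k : ℕ) : (hd K k).length = K := by simp [hd]

theorem hd_inj {K k k' : ℕ} (hk : k < K) (h : hd K k = hd K k') : k = k' := by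
  have h1 := congrArg (fun l : List Bool => l[k]?) h
  simp only [hd, List.getElem?_map, List.getElem?_range hk, Option.map_some] at h1
  simpa using h1

/-- the header number of a string (`K` if there is none) -/
def dk (K : ℕ) (w : List Bool) : ℕ :=
  (((List.range K).filter fun k => decide (w = hd K k ++ w.drop K)).head?).getD K

theorem dk_enc {K k : ℕ} (hk : k < K) (d : List Bool) : dk K (hd K k ++ d) = k := by
  unfold dk
  have h1 : (hd K k ++ d).drop K = d := by
    rw [List.drop_append_of_le_length (by rw [hd_length]), List.drop_of_length_le (by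
      rw [hd_length]), List.nil_append]
  rw [h1]
  have h2 : (List.range K).filter (fun k' => decide (hd K k ++ d = hd K k' ++ d)) = [k] := by
    have h3 : ∀ k' ∈ List.range K, (decide (hd K k ++ d = hd K k' ++ d)) = decide (k' = k) := by
      intro k' _
      rw [decide_eq_decide, List.append_cancel_right_eq]
      exact ⟨fun h => (hd_inj hk h).symm, fun h => by rw [h]⟩
    rw [List.filter_congr h3]
    have h4 := List.nodup_range (n := K)
    rw [List.filter_eq, List.count_eq_one_of_mem h4 (List.mem_range.2 hk)]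
    rfl
  rw [h2]
  rfl

theorem dk_le (K : ℕ) (w : List Bool) : dk K w ≤ K := by
  unfold dk
  cases h : ((List.range K).filter fun k => decide (w = hd K k ++ w.drop K)).head? with
  | none => simp
  | some a =>
    have h1 := List.mem_of_mem_head? h
    rw [List.mem_filter, List.mem_range] at h1
    simp only [Option.getD_some]
    exact h1.1.le

theorem dk_spec {K : ℕ} {w : List Bool} (h : dk K w < K) : hd K (dk K w) ++ w.drop K = w := by
  unfold dk at h ⊢
  cases h' : ((List.range K).filter fun k => decide (w = hd K k ++ w.drop K)).head? with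
  | none => rw [h'] at h; simp at h
  | some a =>
    have h1 := List.mem_of_mem_head? h'
    rw [List.mem_filter, decide_eq_true_iff] at h1
    simp only [Option.getD_some]
    exact h1.2.symm

section PolyHd

variable {α : Type} [TEnc α]

theorem poly_hd (K : ℕ) {k : α → ℕ} (hk : NPC.Poly k) : NPC.Poly (fun a => hd K (k a)) :=
  NPC.Poly.map (F := fun a i => decide (i = k a)) (NPC.Poly.const _)
    (NPC.Poly.decide_eq (NPC.Poly.snd NPC.Poly.id) (hk.comp (NPC.Poly.fst NPC.Poly.id)))

theorem poly_drop (K : ℕ) {β : Type} [TEnc β] {l : α → List β} (hl : NPC.Poly l) :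
    NPC.Poly (fun a => (l a).drop K) := by
  induction K with
  | zero => exact hl.congr fun a => by simp
  | succ K ih => exact (NPC.Poly.tail ih).congr fun a => by rw [List.tail_drop]

theorem poly_dk (K : ℕ) {w : α → List Bool} (hw : NPC.Poly w) : NPC.Poly (fun a => dk K (w a)) := by
  unfold dk
  have h1 : NPC.Poly (fun a => (List.range K).filter
      fun k => decide (w a = hd K k ++ (w a).drop K)) :=
    NPC.Poly.filter (p := fun a k => decide (w a = hd K k ++ (w a).drop K)) (NPC.Poly.const _)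
      (NPC.Poly.decide_eq (hw.comp (NPC.Poly.fst NPC.Poly.id))
        (NPC.Poly.append (poly_hd K (NPC.Poly.snd NPC.Poly.id))
          (poly_drop K (hw.comp (NPC.Poly.fst NPC.Poly.id)))))
  exact (NPC.Poly.optCases (h := fun _ b => b) (NPC.Poly.head? h1) (NPC.Poly.const K)
    (NPC.Poly.snd NPC.Poly.id)).congr fun a => by
      cases ((List.range K).filter fun k => decide (w a = hd K k ++ (w a).drop K)).head? <;> rfl

end PolyHd

section Perm

variable {L : Set (List Bool)} (R : PermProblem L) (D : ℕ)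

/-- accepting final points -/
def af (d : List Bool) : Bool := R.fin d && R.acc d

/-- the number of small steps for one big step -/
def ln (ph : ℕ) (d : List Bool) : ℕ :=
  bif (decide (ph = 0) && af R d) then D + 1
  else bif (decide (ph = 2) && af R d) then 2 * D - 1 else D

/-- the next big point -/
def nx (ph : ℕ) (d : List Bool) : ℕ × List Bool :=
  bif decide (ph % 2 = 0) then (bif R.Q (R.T d) then (ph + 1, d) else (ph, R.T d))
  else (bif R.Q d then ((ph + 1) % 4, d) else (ph, R.Ti d))

/-- the previous big point -/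
def pv (ph : ℕ) (d : List Bool) : ℕ × List Bool :=
  bif decide (ph % 2 = 0) then (bif R.Q d then ((ph + 3) % 4, d) else (ph, R.Ti d))
  else (bif R.Q (R.T d) then (ph - 1, d) else (ph, R.T d))

theorem nx_lt {ph : ℕ} (h : ph < 4) (d : List Bool) : (nx R ph d).1 < 4 := by
  interval_cases ph <;> simp only [nx] <;> cases R.Q (R.T d) <;> cases R.Q d <;> simp

theorem pv_lt {ph : ℕ} (h : ph < 4) (d : List Bool) : (pv R ph d).1 < 4 := by
  interval_cases ph <;> simp only [pv] <;> cases R.Q (R.T d) <;> cases R.Q d <;> simp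

theorem pv_nx {ph : ℕ} (h : ph < 4) (d : List Bool) :
    pv R (nx R ph d).1 (nx R ph d).2 = (ph, d) := by
  interval_cases ph <;> simp only [nx] <;> cases h1 : R.Q (R.T d) <;> cases h2 : R.Q d <;>
    simp [pv, h1, h2, R.Ti_T, R.T_Ti]

theorem nx_pv {ph : ℕ} (h : ph < 4) (d : List Bool) :
    nx R (pv R ph d).1 (pv R ph d).2 = (ph, d) := by
  interval_cases ph <;> simp only [pv] <;> cases h1 : R.Q (R.T d) <;> cases h2 : R.Q d <;>
    simp [nx, h1, h2, R.Ti_T, R.T_Ti]

theorem nx_length (ph : ℕ) (d : List Bool) : (nx R ph d).2.length = d.length := by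
  unfold nx
  cases (decide (ph % 2 = 0)) <;> cases R.Q (R.T d) <;> cases R.Q d <;>
    simp [R.len_T, R.len]

variable {D}

theorem ln_pos (hD : 0 < D) (ph : ℕ) (d : List Bool) : 0 < ln R D ph d := by
  unfold ln
  cases (decide (ph = 0) && af R d) <;> cases (decide (ph = 2) && af R d) <;> simp <;> omega

theorem ln_le (hD : 0 < D) (ph : ℕ) (d : List Bool) : ln R D ph d ≤ 2 * D := by
  unfold ln
  cases (decide (ph = 0) && af R d) <;> cases (decide (ph = 2) && af R d) <;> simp <;> omega

variable (D)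

/-- triples of a phase, a counter and a string -/
abbrev Tr := ℕ × ℕ × List Bool

/-- valid triples -/
def Val (t : Tr) : Prop := t.1 < 4 ∧ t.2.1 < ln R D t.1 t.2.2

/-- small steps -/
def st3 (t : Tr) : Tr :=
  bif decide (t.2.1 + 1 < ln R D t.1 t.2.2) then (t.1, t.2.1 + 1, t.2.2)
  else ((nx R t.1 t.2.2).1, 0, (nx R t.1 t.2.2).2)

/-- small steps backwards -/
def bk3 (t : Tr) : Tr :=
  bif decide (0 < t.2.1) then (t.1, t.2.1 - 1, t.2.2)
  else ((pv R t.1 t.2.2).1, ln R D (pv R t.1 t.2.2).1 (pv R t.1 t.2.2).2 - 1, (pv R t.1 t.2.2).2)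

variable {D}

theorem val_st3 (hD : 0 < D) {t : Tr} (ht : Val R D t) : Val R D (st3 R D t) := by
  obtain ⟨ph, j, d⟩ := t
  obtain ⟨h1, h2⟩ := ht
  simp only at h1 h2
  unfold st3
  by_cases h : j + 1 < ln R D ph d
  · simp only [h, decide_true, cond_true]
    exact ⟨h1, h⟩
  · simp only [h, decide_false, cond_false]
    exact ⟨nx_lt R h1 d, ln_pos R hD _ _⟩

theorem val_bk3 (hD : 0 < D) {t : Tr} (ht : Val R D t) : Val R D (bk3 R D t) := by
  obtain ⟨ph, j, d⟩ := t
  obtain ⟨h1, h2⟩ := ht
  simp only at h1 h2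
  unfold bk3
  by_cases h : 0 < j
  · simp only [h, decide_true, cond_true]
    exact ⟨h1, by simp only; omega⟩
  · simp only [h, decide_false, cond_false]
    refine ⟨pv_lt R h1 d, ?_⟩
    have := ln_pos R hD (pv R ph d).1 (pv R ph d).2
    simp only
    omega

theorem bk3_st3 {t : Tr} (ht : Val R D t) : bk3 R D (st3 R D t) = t := by
  obtain ⟨ph, j, d⟩ := t
  obtain ⟨h1, h2⟩ := ht
  simp only at h1 h2
  unfold st3
  by_cases h : j + 1 < ln R D ph d
  · simp only [h, decide_true, cond_true]
    simp [bk3]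
  · simp only [h, decide_false, cond_false]
    have h3 := pv_nx R h1 d
    have h4 : j = ln R D ph d - 1 := by omega
    simp [bk3, h3, ← h4]

theorem st3_bk3 (hD : 0 < D) {t : Tr} (ht : Val R D t) : st3 R D (bk3 R D t) = t := by
  obtain ⟨ph, j, d⟩ := t
  obtain ⟨h1, h2⟩ := ht
  simp only at h1 h2
  unfold bk3
  by_cases h : 0 < j
  · simp only [h, decide_true, cond_true]
    have h3 : j - 1 + 1 = j := by omega
    simp [st3, h3, h2]
  · simp only [h, decide_false, cond_false]
    have h3 := nx_pv R h1 d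
    have h4 := ln_pos R hD (pv R ph d).1 (pv R ph d).2
    have h5 : ln R D (pv R ph d).1 (pv R ph d).2 - 1 + 1 = ln R D (pv R ph d).1 (pv R ph d).2 := by
      omega
    have h6 : j = 0 := by omega
    simp [st3, h3, h5, h6]

theorem st3_length (t : Tr) : (st3 R D t).2.2.length = t.2.2.length := by
  unfold st3
  by_cases h : t.2.1 + 1 < ln R D t.1 t.2.2
  · simp only [h, decide_true, cond_true]
  · simp only [h, decide_false, cond_false]
    exact nx_length R _ _

/-- the code of a triple -/
def enc (D : ℕ) (t : Tr) : List Bool := hd (8 * D) (t.1 * (2 * D) + t.2.1) ++ t.2.2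

/-- the triple of a string -/
def dc (D : ℕ) (w : List Bool) : Tr :=
  (dk (8 * D) w / (2 * D), dk (8 * D) w % (2 * D), w.drop (8 * D))

theorem code_lt (hD : 0 < D) {t : Tr} (ht : Val R D t) : t.1 * (2 * D) + t.2.1 < 8 * D := by
  have h1 := ht.1
  have h2 := ht.2
  have h3 := ln_le R hD t.1 t.2.2
  nlinarith

theorem dc_enc (hD : 0 < D) {t : Tr} (ht : Val R D t) : dc D (enc D t) = t := by
  have h1 := code_lt R hD ht
  have h2 := ht.2
  have h3 := ln_le R hD t.1 t.2.2
  unfold dc enc
  rw [dk_enc h1]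
  obtain ⟨ph, j, d⟩ := t
  simp only at h1 h2 h3 ⊢
  have h4 : (hd (8 * D) (ph * (2 * D) + j) ++ d).drop (8 * D) = d := by
    rw [List.drop_append_of_le_length (by rw [hd_length]), List.drop_of_length_le (by
      rw [hd_length]), List.nil_append]
  rw [h4]
  have h5 : (ph * (2 * D) + j) / (2 * D) = ph := by
    rw [mul_comm, Nat.mul_add_div (by omega), Nat.div_eq_of_lt (by omega), add_zero]
  have h6 : (ph * (2 * D) + j) % (2 * D) = j := by
    rw [mul_comm, Nat.mul_add_mod, Nat.mod_eq_of_lt (by omega)]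
  rw [h5, h6]

variable (D)

/-- the test for the domain -/
def tst (w : List Bool) : Bool :=
  decide (enc D (dc D w) = w) && (decide ((dc D w).1 < 4) &&
    decide ((dc D w).2.1 < ln R D (dc D w).1 (dc D w).2.2))

variable {D}

theorem tst_iff (hD : 0 < D) (w : List Bool) : tst R D w = true ↔ ∃ t, Val R D t ∧ w = enc D t := by
  unfold tst
  simp only [Bool.and_eq_true, decide_eq_true_iff]
  constructor
  · rintro ⟨h1, h2, h3⟩
    exact ⟨dc D w, ⟨h2, h3⟩, h1.symm⟩
  · rintro ⟨t, ht, rfl⟩
    rw [dc_enc R hD ht]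
    exact ⟨rfl, ht.1, ht.2⟩

section PolyLemmas

variable {α : Type} [TEnc α]

theorem poly_af : NPC.Poly (af R) := NPC.Poly.and R.poly_fin R.poly_acc

theorem poly_ln (D : ℕ) {ph : α → ℕ} {d : α → List Bool} (hph : NPC.Poly ph) (hd : NPC.Poly d) :
    NPC.Poly (fun a => ln R D (ph a) (d a)) :=
  NPC.Poly.cond (NPC.Poly.and (NPC.Poly.decide_eq hph (NPC.Poly.const 0)) ((poly_af R).comp hd))
    (NPC.Poly.const _)
    (NPC.Poly.cond (NPC.Poly.and (NPC.Poly.decide_eq hph (NPC.Poly.const 2)) ((poly_af R).comp hd))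
      (NPC.Poly.const _) (NPC.Poly.const _))

theorem poly_nx {ph : α → ℕ} {d : α → List Bool} (hph : NPC.Poly ph) (hd : NPC.Poly d) :
    NPC.Poly (fun a => nx R (ph a) (d a)) :=
  NPC.Poly.cond (NPC.Poly.decide_eq (NPC.Poly.mod hph (NPC.Poly.const 2)) (NPC.Poly.const 0))
    (NPC.Poly.cond (R.poly_Q.comp (R.poly_T.comp hd))
      (NPC.Poly.pair (NPC.Poly.add hph (NPC.Poly.const 1)) hd)
      (NPC.Poly.pair hph (R.poly_T.comp hd)))
    (NPC.Poly.cond (R.poly_Q.comp hd)
      (NPC.Poly.pair (NPC.Poly.mod (NPC.Poly.add hph (NPC.Poly.const 1)) (NPC.Poly.const 4)) hd)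
      (NPC.Poly.pair hph (R.poly_Ti.comp hd)))

theorem poly_pv {ph : α → ℕ} {d : α → List Bool} (hph : NPC.Poly ph) (hd : NPC.Poly d) :
    NPC.Poly (fun a => pv R (ph a) (d a)) :=
  NPC.Poly.cond (NPC.Poly.decide_eq (NPC.Poly.mod hph (NPC.Poly.const 2)) (NPC.Poly.const 0))
    (NPC.Poly.cond (R.poly_Q.comp hd)
      (NPC.Poly.pair (NPC.Poly.mod (NPC.Poly.add hph (NPC.Poly.const 3)) (NPC.Poly.const 4)) hd)
      (NPC.Poly.pair hph (R.poly_Ti.comp hd)))
    (NPC.Poly.cond (R.poly_Q.comp (R.poly_T.comp hd))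
      (NPC.Poly.pair (NPC.Poly.sub hph (NPC.Poly.const 1)) hd)
      (NPC.Poly.pair hph (R.poly_T.comp hd)))

theorem poly_st3 (D : ℕ) {t : α → Tr} (ht : NPC.Poly t) : NPC.Poly (fun a => st3 R D (t a)) := by
  have h1 := NPC.Poly.fst ht
  have h2 := NPC.Poly.fst (NPC.Poly.snd ht)
  have h3 := NPC.Poly.snd (NPC.Poly.snd ht)
  have hn := poly_nx R h1 h3
  exact NPC.Poly.cond (NPC.Poly.decide_lt (NPC.Poly.add h2 (NPC.Poly.const 1)) (poly_ln R D h1 h3))
    (NPC.Poly.pair h1 (NPC.Poly.pair (NPC.Poly.add h2 (NPC.Poly.const 1)) h3))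
    (NPC.Poly.pair (NPC.Poly.fst hn) (NPC.Poly.pair (NPC.Poly.const 0) (NPC.Poly.snd hn)))

theorem poly_bk3 (D : ℕ) {t : α → Tr} (ht : NPC.Poly t) : NPC.Poly (fun a => bk3 R D (t a)) := by
  have h1 := NPC.Poly.fst ht
  have h2 := NPC.Poly.fst (NPC.Poly.snd ht)
  have h3 := NPC.Poly.snd (NPC.Poly.snd ht)
  have hn := poly_pv R h1 h3
  exact NPC.Poly.cond (NPC.Poly.decide_lt (NPC.Poly.const 0) h2)
    (NPC.Poly.pair h1 (NPC.Poly.pair (NPC.Poly.sub h2 (NPC.Poly.const 1)) h3))
    (NPC.Poly.pair (NPC.Poly.fst hn) (NPC.Poly.pair (NPC.Poly.sub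
      (poly_ln R D (NPC.Poly.fst hn) (NPC.Poly.snd hn)) (NPC.Poly.const 1)) (NPC.Poly.snd hn)))

theorem poly_enc (D : ℕ) {t : α → Tr} (ht : NPC.Poly t) : NPC.Poly (fun a => enc D (t a)) :=
  NPC.Poly.append (poly_hd _ (NPC.Poly.add (NPC.Poly.mul (NPC.Poly.fst ht) (NPC.Poly.const _))
    (NPC.Poly.fst (NPC.Poly.snd ht)))) (NPC.Poly.snd (NPC.Poly.snd ht))

theorem poly_dc (D : ℕ) {w : α → List Bool} (hw : NPC.Poly w) : NPC.Poly (fun a => dc D (w a)) :=
  NPC.Poly.pair (NPC.Poly.div (poly_dk _ hw) (NPC.Poly.const _))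
    (NPC.Poly.pair (NPC.Poly.mod (poly_dk _ hw) (NPC.Poly.const _)) (poly_drop _ hw))

theorem poly_tst (D : ℕ) : NPC.Poly (tst R D) := by
  have h := poly_dc D (NPC.Poly.id (α := List Bool))
  have h1 := NPC.Poly.fst h
  have h2 := NPC.Poly.fst (NPC.Poly.snd h)
  have h3 := NPC.Poly.snd (NPC.Poly.snd h)
  exact NPC.Poly.and (NPC.Poly.decide_eq (poly_enc D h) NPC.Poly.id)
    (NPC.Poly.and (NPC.Poly.decide_lt h1 (NPC.Poly.const 4))
      (NPC.Poly.decide_lt h2 (poly_ln R D h1 h3)))

end PolyLemmas

/-- the permutation -/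
def perm (hD : 0 < D) : PPerm where
  X := {w | tst R D w = true}
  f := fun w => enc D (st3 R D (dc D w))
  g := fun w => enc D (bk3 R D (dc D w))
  inP := ⟨fun x => [tst R D x], polyTime_of_poly (poly_tst R D), fun x => by simp⟩
  polyTime_f := poly_iff.1 (poly_enc D (poly_st3 R D (poly_dc D NPC.Poly.id)))
  polyTime_g := poly_iff.1 (poly_enc D (poly_bk3 R D (poly_dc D NPC.Poly.id)))
  mem_f := by
    intro x hx
    obtain ⟨t, ht, rfl⟩ := (tst_iff R hD x).1 hx
    rw [dc_enc R hD ht]
    exact (tst_iff R hD _).2 ⟨_, val_st3 R hD ht, rfl⟩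
  mem_g := by
    intro x hx
    obtain ⟨t, ht, rfl⟩ := (tst_iff R hD x).1 hx
    rw [dc_enc R hD ht]
    exact (tst_iff R hD _).2 ⟨_, val_bk3 R hD ht, rfl⟩
  g_f := by
    intro x hx
    obtain ⟨t, ht, rfl⟩ := (tst_iff R hD x).1 hx
    rw [dc_enc R hD ht, dc_enc R hD (val_st3 R hD ht), bk3_st3 R ht]
  f_g := by
    intro x hx
    obtain ⟨t, ht, rfl⟩ := (tst_iff R hD x).1 hx
    rw [dc_enc R hD ht, dc_enc R hD (val_bk3 R hD ht), st3_bk3 R hD ht]
  length_f := by
    intro x hx
    obtain ⟨t, ht, rfl⟩ := (tst_iff R hD x).1 hx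
    rw [dc_enc R hD ht]
    simp only [enc, List.length_append, hd_length, st3_length]

/-! ### The potential -/

/-- the segment of a point ends in an accepting final point -/
def Al (d : List Bool) : Prop :=
  ∃ n, R.Q (R.T^[n + 1] d) = true ∧ (∀ i < n, R.Q (R.T^[i + 1] d) = false) ∧
    af R (R.T^[n] d) = true

theorem al_T {d : List Bool} (h : R.Q (R.T d) = false) : Al R (R.T d) ↔ Al R d := by
  constructor
  · rintro ⟨n, h1, h2, h3⟩
    refine ⟨n + 1, ?_, ?_, ?_⟩
    · rw [Function.iterate_succ_apply]; exact h1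
    · intro i hi
      cases i with
      | zero => exact h
      | succ i => rw [Function.iterate_succ_apply]; exact h2 i (by omega)
    · rw [Function.iterate_succ_apply]; exact h3
  · rintro ⟨n, h1, h2, h3⟩
    cases n with
    | zero =>
      change R.Q (R.T d) = true at h1
      rw [h] at h1
      exact absurd h1 (by simp)
    | succ n =>
      refine ⟨n, ?_, ?_, ?_⟩
      · rw [← Function.iterate_succ_apply]; exact h1
      · intro i hi
        rw [← Function.iterate_succ_apply]; exact h2 (i + 1) (by omega)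
      · rw [← Function.iterate_succ_apply]; exact h3

theorem al_Ti {d : List Bool} (h : R.Q d = false) : Al R (R.Ti d) ↔ Al R d := by
  have h1 := al_T R (d := R.Ti d) (by rw [R.T_Ti]; exact h)
  rw [R.T_Ti] at h1
  exact h1.symm

theorem al_end {d : List Bool} (h : R.Q (R.T d) = true) : Al R d ↔ af R d = true := by
  constructor
  · rintro ⟨n, h1, h2, h3⟩
    cases n with
    | zero => exact h3
    | succ n =>
      have h4 := h2 0 (by omega)
      change R.Q (R.T d) = false at h4
      rw [h] at h4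
      exact absurd h4 (by simp)
  · intro h1
    exact ⟨0, h, fun i hi => by omega, h1⟩

theorem af_Q {d : List Bool} (h : R.Q (R.T d) = false) : af R d = false := by
  unfold PermProblem.Q at h
  rw [R.Ti_T] at h
  simp only [Bool.or_eq_false_iff] at h
  simp [af, h.2]

open Classical in
/-- the potential of a triple -/
noncomputable def pot (t : Tr) : ℕ := (if (t.1 = 1 ∨ t.1 = 2) ∧ Al R t.2.2 then 1 else 0) + t.2.1

theorem pot_st3 (hD : 0 < D) {t : Tr} (ht : Val R D t) :
    (pot R (st3 R D t)) % D = (pot R t + 1) % D := by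
  obtain ⟨ph, j, d⟩ := t
  obtain ⟨h1, h2⟩ := ht
  simp only at h1 h2
  unfold st3
  by_cases h : j + 1 < ln R D ph d
  · simp only [h, decide_true, cond_true]
    simp only [pot]
    congr 1
  · simp only [h, decide_false, cond_false]
    have h3 : j + 1 = ln R D ph d := by omega
    have e1 : (D + 1) % D = 1 % D := by rw [Nat.add_mod_left]
    have e2 : (1 + (2 * D - 1)) % D = 0 := by
      rw [show 1 + (2 * D - 1) = D * 2 by omega, Nat.mul_mod_right]
    have e3 : (1 + D) % D = 1 % D := by rw [Nat.add_mod_right]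
    simp only [pot]
    rw [add_assoc, h3]
    interval_cases ph
    · -- phase 0
      cases hq : R.Q (R.T d)
      · have ha := af_Q R hq
        simp [nx, hq, ln, ha]
      · have he := al_end R hq
        cases ha : af R d
        · have : ¬ Al R d := by rw [he, ha]; simp
          simp [nx, hq, ln, ha, this]
        · have : Al R d := by rw [he, ha]
          simp [nx, hq, ln, ha, this]
    · -- phase 1
      cases hq : R.Q d
      · have he := al_Ti R hq
        by_cases ha : Al R d
        · have ha' := he.2 ha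
          simp [nx, hq, ln, ha, ha']
        · have ha' : ¬ Al R (R.Ti d) := fun h => ha (he.1 h)
          simp [nx, hq, ln, ha, ha']
      · by_cases ha : Al R d
        · simp [nx, hq, ln, ha]
        · simp [nx, hq, ln, ha]
    · -- phase 2
      cases hq : R.Q (R.T d)
      · have ha := af_Q R hq
        have he := al_T R hq
        by_cases ha2 : Al R d
        · have ha' := he.2 ha2
          simp [nx, hq, ln, ha, ha2, ha']
        · have ha' : ¬ Al R (R.T d) := fun h => ha2 (he.1 h)
          simp [nx, hq, ln, ha, ha2, ha']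
      · have he := al_end R hq
        cases ha : af R d
        · have : ¬ Al R d := by rw [he, ha]; simp
          simp [nx, hq, ln, ha, this]
        · have : Al R d := by rw [he, ha]
          simp [nx, hq, ln, ha, this, e2]
    · -- phase 3
      cases hq : R.Q d
      · simp [nx, hq, ln]
      · simp [nx, hq, ln]

end Perm

end Pool.Agent.V7H67.LL
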