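import Pool.Agent.V7H67.LL.Hard

/-!
# Labellings of the permutation of a language in polynomial space decide the language
-/

namespace Pool.Agent.V7H67.LL

open Pool.Agent.NPC Pool.Agent.NPC.PIso

variable {L : Set (List Bool)} (R : PermProblem L) {D : ℕ}

/-- reachability by small steps -/
def Rc (D : ℕ) (t t' : Tr) : Prop := ∃ n, (st3 R D)^[n] t = t'

theorem Rc.trans {t t' t'' : Tr} (h : Rc R D t t') (h' : Rc R D t' t'') : Rc R D t t'' := by
  obtain ⟨n, rfl⟩ := h
  obtain ⟨m, rfl⟩ := h'
  exact ⟨m + n, by rw [Function.iterate_add_apply]⟩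

theorem st3_iter {ph : ℕ} {d : List Bool} : ∀ j, j < ln R D ph d →
    (st3 R D)^[j] (ph, 0, d) = (ph, j, d) := by
  intro j
  induction j with
  | zero => intro _; rfl
  | succ j ih =>
    intro hj
    rw [Function.iterate_succ_apply', ih (by omega)]
    simp [st3, hj]

theorem rc_big (hD : 0 < D) (ph : ℕ) (d : List Bool) :
    Rc R D (ph, 0, d) ((nx R ph d).1, 0, (nx R ph d).2) := by
  have h := ln_pos R hD ph d
  refine ⟨(ln R D ph d - 1) + 1, ?_⟩
  rw [Function.iterate_succ_apply', st3_iter R _ (by omega)]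
  have : ¬ (ln R D ph d - 1 + 1 < ln R D ph d) := by omega
  simp [st3, this]

theorem Q_start (x : List Bool) : R.Q (R.start x) = true := by
  unfold PermProblem.Q
  rw [(R.isStart_iff _).2 ⟨x, rfl⟩]; rfl

theorem Q_iter (x : List Bool) (i : ℕ) (h0 : 0 < i) (hi : i ≤ R.m x) :
    R.Q (R.T^[i] (R.start x)) = false := by
  obtain ⟨j, rfl⟩ : ∃ j, i = j + 1 := ⟨i - 1, by omega⟩
  unfold PermProblem.Q
  rw [R.isStart_iter x (j + 1) h0 hi, Function.iterate_succ_apply', R.Ti_T,
    R.fin_lt x j (by omega)]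
  rfl

theorem Q_end (x : List Bool) : R.Q (R.T^[R.m x + 1] (R.start x)) = true := by
  unfold PermProblem.Q
  rw [Function.iterate_succ_apply', R.Ti_T, R.fin_m]
  simp

theorem rc_up (hD : 0 < D) (x : List Bool) : ∀ i ≤ R.m x,
    Rc R D (0, 0, R.start x) (0, 0, R.T^[i] (R.start x)) := by
  intro i
  induction i with
  | zero => intro _; exact ⟨0, rfl⟩
  | succ i ih =>
    intro hi
    refine (ih (by omega)).trans R ?_
    have h := rc_big R hD 0 (R.T^[i] (R.start x))
    have h1 := Q_iter R x (i + 1) (by omega) hi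
    rw [Function.iterate_succ_apply'] at h1 ⊢
    simpa [nx, h1] using h

theorem rc_turn (hD : 0 < D) (x : List Bool) :
    Rc R D (0, 0, R.T^[R.m x] (R.start x)) (1, 0, R.T^[R.m x] (R.start x)) := by
  have h := rc_big R hD 0 (R.T^[R.m x] (R.start x))
  have h1 := Q_end R x
  rw [Function.iterate_succ_apply'] at h1
  simpa [nx, h1] using h

theorem rc_down (hD : 0 < D) (x : List Bool) : ∀ i ≤ R.m x,
    Rc R D (1, 0, R.T^[i] (R.start x)) (1, 0, R.start x) := by
  intro i
  induction i with
  | zero => intro _; exact ⟨0, rfl⟩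
  | succ i ih =>
    intro hi
    refine Rc.trans R ?_ (ih (by omega))
    have h := rc_big R hD 1 (R.T^[i + 1] (R.start x))
    have h1 := Q_iter R x (i + 1) (by omega) hi
    have h2 : R.Ti (R.T^[i + 1] (R.start x)) = R.T^[i] (R.start x) := by
      rw [Function.iterate_succ_apply', R.Ti_T]
    have h3 : nx R 1 (R.T^[i + 1] (R.start x)) = (1, R.T^[i] (R.start x)) := by
      unfold nx
      rw [h1, h2]
      rfl
    rw [h3] at h
    exact h

theorem rc_all (hD : 0 < D) (x : List Bool) :
    Rc R D (0, 0, R.start x) (1, 0, R.start x) :=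
  (rc_up R hD x _ le_rfl).trans R ((rc_turn R hD x).trans R (rc_down R hD x _ le_rfl))

theorem al_start (x : List Bool) : Al R (R.start x) ↔ x ∈ L := by
  rw [R.acc_m]
  constructor
  · rintro ⟨n, h1, h2, h3⟩
    have hn : n = R.m x := by
      rcases Nat.lt_trichotomy n (R.m x) with h | h | h
      · have := Q_iter R x (n + 1) (by omega) (by omega)
        rw [this] at h1
        exact absurd h1 (by simp)
      · exact h
      · have := h2 _ h
        rw [Q_end] at this
        exact absurd this (by simp)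
    subst hn
    simp only [af, Bool.and_eq_true] at h3
    exact h3.2
  · intro h
    refine ⟨R.m x, Q_end R x, fun i hi => Q_iter R x (i + 1) (by omega) (by omega), ?_⟩
    simp only [af, R.fin_m, h, Bool.and_self]

theorem perm_mem (hD : 0 < D) {t : Tr} (ht : Val R D t) : enc D t ∈ (perm R hD).X :=
  (tst_iff R hD _).2 ⟨t, ht, rfl⟩

theorem perm_f (hD : 0 < D) {t : Tr} (ht : Val R D t) :
    (perm R hD).F (enc D t) = enc D (st3 R D t) := by
  rw [(perm R hD).F_mem (perm_mem R hD ht)]
  change enc D (st3 R D (dc D (enc D t))) = _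
  rw [dc_enc R hD ht]

theorem perm_iter (hD : 0 < D) {t : Tr} (ht : Val R D t) (n : ℕ) :
    Val R D ((st3 R D)^[n] t) ∧ (perm R hD).F^[n] (enc D t) = enc D ((st3 R D)^[n] t) := by
  induction n with
  | zero => exact ⟨ht, rfl⟩
  | succ n ih =>
    rw [Function.iterate_succ_apply', Function.iterate_succ_apply', ih.2]
    exact ⟨val_st3 R hD ih.1, perm_f R hD ih.1⟩

theorem pot_iter (hD : 0 < D) {t : Tr} (ht : Val R D t) (n : ℕ) :
    (pot R ((st3 R D)^[n] t)) % D = (pot R t + n) % D := by
  induction n with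
  | zero => rfl
  | succ n ih =>
    rw [Function.iterate_succ_apply', pot_st3 R hD (perm_iter R hD ht n).1, Nat.add_mod, ih,
      ← Nat.add_mod, add_assoc]

theorem val_zero (hD : 0 < D) {ph : ℕ} (h : ph < 4) (d : List Bool) : Val R D (ph, 0, d) :=
  ⟨h, ln_pos R hD _ _⟩

open Classical in
/-- the two points of an instance, and the residues of the distances between them -/
theorem perm_dist (hD : 0 < D) (x : List Bool) : ∃ n n' : ℕ,
    (perm R hD).F^[n] (enc D (0, 0, R.start x)) = enc D (1, 0, R.start x) ∧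
    (perm R hD).F^[n'] (enc D (1, 0, R.start x)) = enc D (0, 0, R.start x) ∧
    n % D = (if x ∈ L then 1 else 0) % D ∧ (n + n') % D = 0 := by
  obtain ⟨n, hn⟩ := rc_all R hD x
  have h0 := val_zero R hD (ph := 0) (by omega) (R.start x)
  have h1 := perm_iter R hD h0 n
  have h2 := pot_iter R hD h0 n
  rw [hn] at h1 h2
  obtain ⟨N, hN, hN'⟩ := (perm R hD).exists_period (enc D (0, 0, R.start x))
  have hle : n ≤ N * (n + 1) := by nlinarith
  have hper : (perm R hD).F^[N * (n + 1)] (enc D (0, 0, R.start x)) =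
      enc D (0, 0, R.start x) :=
    Function.IsPeriodicPt.mul_const (f := (perm R hD).F) (m := N) hN' (n + 1)
  refine ⟨n, N * (n + 1) - n, h1.2, ?_, ?_, ?_⟩
  · rw [← h1.2, ← Function.iterate_add_apply, Nat.sub_add_cancel hle]
    exact hper
  · simp only [pot, Nat.add_zero, true_or, true_and, al_start] at h2
    simpa using h2.symm
  · have h3 := perm_iter R hD h0 (N * (n + 1))
    rw [hper] at h3
    have h4 : (st3 R D)^[N * (n + 1)] (0, 0, R.start x) = (0, 0, R.start x) := by
      have h5 := congrArg (dc D) h3.2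
      rw [dc_enc R hD h0, dc_enc R hD h3.1] at h5
      exact h5.symm
    have h6 := pot_iter R hD h0 (N * (n + 1))
    rw [h4] at h6
    have h7 : pot R (0, 0, R.start x) = 0 := by simp [pot]
    rw [h7, Nat.zero_mod, zero_add] at h6
    rw [Nat.add_sub_cancel' hle]
    exact h6.symm

/-- the permutation has labellings -/
theorem perm_labelable {k : ℕ} {E : Fin k → Fin k → Prop} (hD : 0 < D) {v : Fin k}
    (hv : Walk E D v v) : ∃ c, IsLabelling E (perm R hD) c := by
  obtain ⟨w, w0, wD, hw⟩ := hv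
  refine ⟨fun y => w (pot R (dc D y) % D), fun y hy => ?_⟩
  obtain ⟨t, ht, rfl⟩ := (tst_iff R hD y).1 hy
  have h1 : (perm R hD).f (enc D t) = enc D (st3 R D t) := by
    rw [← perm_f R hD ht, (perm R hD).F_mem hy]
  rw [h1]
  simp only
  rw [dc_enc R hD ht, dc_enc R hD (val_st3 R hD ht), pot_st3 R hD ht]
  exact closed_step hD (wD.trans w0.symm) hw _

/-- the first query of an instance -/
def q1 (D : ℕ) (x : List Bool) : List Bool := enc D (0, 0, R.start x)

/-- the second query of an instance -/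
def q2 (D : ℕ) (x : List Bool) : List Bool := enc D (1, 0, R.start x)

theorem poly_q1 (D : ℕ) : NPC.Poly (q1 R D) :=
  poly_enc D (NPC.Poly.pair (NPC.Poly.const 0) (NPC.Poly.pair (NPC.Poly.const 0) R.poly_start))

theorem poly_q2 (D : ℕ) : NPC.Poly (q2 R D) :=
  poly_enc D (NPC.Poly.pair (NPC.Poly.const 1) (NPC.Poly.pair (NPC.Poly.const 0) R.poly_start))

theorem q1_mem (hD : 0 < D) (x : List Bool) : q1 R D x ∈ (perm R hD).X :=
  perm_mem R hD (val_zero R hD (by omega) _)

theorem q2_mem (hD : 0 < D) (x : List Bool) : q2 R D x ∈ (perm R hD).X :=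
  perm_mem R hD (val_zero R hD (by omega) _)

/-- Membership in the language can be read off from the labels of two points. -/
theorem perm_decides {k : ℕ} {E : Fin k → Fin k → Prop} (hF : ¬ Flexible E) (hD : 0 < D)
    (hE : ∀ v, (∃ n, 0 < n ∧ Walk E n v v) → Walk E D v v) {c : List Bool → Fin k}
    (hc : IsLabelling E (perm R hD) c) (x : List Bool) :
    x ∈ L ↔ ∃ n, n % D = 1 % D ∧ Walk E n (c (q1 R D x)) (c (q2 R D x)) := by
  classical
  set P := perm R hD with hP
  obtain ⟨n, n', h1, h2, h3, h4⟩ := perm_dist R hD x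
  have hc' : ∀ y ∈ P.X, E (c y) (c (P.F y)) := fun y hy => by rw [P.F_mem hy]; exact hc y hy
  have hw := Walk.of_iterate (fun y hy => P.mem_F hy) hc' (q1_mem R hD x) n
  have hw' := Walk.of_iterate (fun y hy => P.mem_F hy) hc' (q2_mem R hD x) n'
  have e1 : P.F^[n] (q1 R D x) = q2 R D x := h1
  have e2 : P.F^[n'] (q2 R D x) = q1 R D x := h2
  rw [e1] at hw
  rw [e2] at hw'
  have hDu : Walk E D (c (q1 R D x)) (c (q1 R D x)) := by
    apply hE
    refine ⟨P.N (q1 R D x), P.N_pos _, ?_⟩
    have := Walk.of_iterate (fun y hy => P.mem_F hy) hc' (q1_mem R hD x) (P.N (q1 R D x))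
    rwa [P.iter_N] at this
  constructor
  · intro hx
    exact ⟨n, by rw [h3, if_pos hx], hw⟩
  · rintro ⟨n1, hn1, hw1⟩
    by_contra hx
    rw [if_neg hx, Nat.zero_mod] at h3
    exact not_both hF hD hDu hw1 hw' h4 h3 hn1

end Pool.Agent.V7H67.LL
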