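import Pool.Agent.H505R3.RS.Mem
import Pool.Agent.H623R2.PS.TM
import Pool.Agent.H550R2.Iso.Machine
import Pool.Agent.H550R2.Iso.Iter

/-!
# The two definitions of polynomial space of the library agree
-/

namespace Pool.Agent.V7H67.LL

open Turing Pool.Agent.NPC Pool.Agent.NPC.PIso

theorem toPIso {L : Set (List Bool)} (h : H623R2.PS.InPSPACE L) : PIso.InPSPACE L := by
  obtain ⟨f, M, p, hf, hp⟩ := h
  refine ⟨M.tm, M.inputAlphabet, M.outputAlphabet, p, fun x => ⟨?_, ?_⟩⟩
  · obtain ⟨n, hn⟩ := M.outputsFun x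
    exact ⟨n, f x, (hf x).symm, hn⟩
  · intro i c hc k
    have h1 := H623R2.PS.reaches_of_iterate i hc
    exact (H623R2.PS.length_le_space c k).trans (hp x c h1)

theorem ofPIso {L : Set (List Bool)} (h : PIso.InPSPACE L) : H623R2.PS.InPSPACE L := by
  obtain ⟨D⟩ := exists_sys h
  choose n h1 h2 h3 h4 using D.halts
  let F : ℕ → Bool × ℕ := fun c => (D.H c, bif D.H c then c else D.δ c)
  have hF : NPC.Poly F := NPC.Poly.pair D.poly_H (NPC.Poly.cond D.poly_H NPC.Poly.id D.poly_δ)
  have it : ∀ x i, i ≤ n x → (fun b => (F b).2)^[i] (D.c₀ x) = D.δ^[i] (D.c₀ x) := by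
    intro x i
    induction i with
    | zero => intro _; rfl
    | succ i ih =>
      intro hi
      rw [Function.iterate_succ_apply', Function.iterate_succ_apply', ih (by omega)]
      simp only [F, h3 x i (by omega), cond_false]
  have it' : ∀ x, (fun b => (F b).2)^[n x + 1] (D.c₀ x) = D.δ^[n x] (D.c₀ x) := by
    intro x
    rw [Function.iterate_succ_apply', it x _ le_rfl]
    simp only [F, h2 x, cond_true]
  have hsz : ∀ x i, i ≤ n x → sz (D.δ^[i] (D.c₀ x)) ≤
      (Polynomial.C 4 * D.N + Polynomial.C 1).eval x.length := by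
    intro x i hi
    have h5 := sz_nat_le (D.δ^[i] (D.c₀ x))
    have h6 := Nat.size_le.2 (h1 x i hi)
    simp only [Polynomial.eval_add, Polynomial.eval_mul, Polynomial.eval_C]
    omega
  refine H623R2.PS.inPSPACE_of_process (init := D.c₀) D.poly_c₀ (F := F) hF (out := D.A) D.poly_A
    (Polynomial.C 4 * D.N + Polynomial.C 1) n ?_ ?_ ?_ ?_
  · intro x i hi
    rw [it x i hi.le]
    exact h3 x i hi
  · intro x
    rw [it x _ le_rfl]
    exact h2 x
  · intro x i hi
    rcases Nat.lt_or_ge (n x) i with h | h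
    · have : i = n x + 1 := by omega
      rw [this, it']
      exact hsz x _ le_rfl
    · rw [it x i h]
      exact hsz x i h
  · intro x
    rw [it']
    exact h4 x

theorem inPSPACE_iff {L : Set (List Bool)} : H623R2.PS.InPSPACE L ↔ PIso.InPSPACE L :=
  ⟨toPIso, ofPIso⟩

/-- There is a language in `PSPACE` to which every language in `PSPACE` reduces. -/
theorem exists_complete : ∃ L₀ : Set (List Bool), PIso.InPSPACE L₀ ∧
    ∀ L, H623R2.PS.InPSPACE L → Reduces L L₀ :=
  ⟨lang (H623R2.PS.ReachableSubset 2), toPIso (H505R3.RS.member 2),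
    H623R2.PS.hard le_rfl⟩

end Pool.Agent.V7H67.LL
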