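import Pool.Agent.V7H67.LL.Anchor

/-!
# Flexible graphs: labellings in polynomial time
-/

namespace Pool.Agent.V7H67.LL

open Pool.Agent.NPC Pool.Agent.NPC.PIso

section PolyLemmas

variable (P : PPerm) (r : ℕ)

theorem poly_shrt : NPC.Poly (shrt P r) :=
  NPC.Poly.any (p := fun x j => decide (P.F^[min (j + 1) r] x = x)) (NPC.Poly.const (List.range r))
    (NPC.Poly.decide_eq (poly_iter P.poly_F P.length_F (NPC.Poly.fst NPC.Poly.id)
      (NPC.Poly.add (NPC.Poly.snd NPC.Poly.id) (NPC.Poly.const 1)) (UPoly.const r))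
      (NPC.Poly.fst NPC.Poly.id))

theorem poly_anch : NPC.Poly (anch P r) := by
  have hF : NPC.Poly (fun p : List Bool × ℕ => P.F^[min (p.2 + 1) r] p.1) :=
    poly_iter P.poly_F P.length_F (NPC.Poly.fst NPC.Poly.id)
      (NPC.Poly.add (NPC.Poly.snd NPC.Poly.id) (NPC.Poly.const 1)) (UPoly.const r)
  have hG : NPC.Poly (fun p : List Bool × ℕ => P.G^[min (p.2 + 1) r] p.1) :=
    poly_iter P.poly_G P.length_G (NPC.Poly.fst NPC.Poly.id)
      (NPC.Poly.add (NPC.Poly.snd NPC.Poly.id) (NPC.Poly.const 1)) (UPoly.const r)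
  refine NPC.Poly.cond (poly_shrt P r) ?_ ?_
  · exact NPC.Poly.all (p := fun x j => decide (valB x ≤ valB (P.F^[min (j + 1) r] x)))
      (NPC.Poly.const (List.range r)) (NPC.Poly.decide_le (NPC.Poly.valBits
        (NPC.Poly.fst NPC.Poly.id)) (NPC.Poly.valBits hF))
  · exact NPC.Poly.all (p := fun x j => decide (chi P r x < chi P r (P.F^[min (j + 1) r] x)) &&
      decide (chi P r x < chi P r (P.G^[min (j + 1) r] x)))
      (NPC.Poly.const (List.range r)) (NPC.Poly.and
        (NPC.Poly.decide_lt ((poly_chi P r).comp (NPC.Poly.fst NPC.Poly.id)) ((poly_chi P r).comp hF))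
        (NPC.Poly.decide_lt ((poly_chi P r).comp (NPC.Poly.fst NPC.Poly.id)) ((poly_chi P r).comp hG)))

theorem upoly_N1 : UPoly (N1 r) := by
  have h := UPoly.eval (UPoly.length (NPC.Poly.id (α := List Bool)))
    (Polynomial.C 2 * (Polynomial.C r * (Polynomial.C 2 * Polynomial.X + 1) ^ r + Polynomial.C r) +
      Polynomial.C 2)
  refine NPC.Poly.congr h fun x => ?_
  congr 1
  simp [N1, B0]

theorem poly_bk : NPC.Poly (bk P r) := by
  refine poly_lst (p := fun x i => anch P r (P.G^[min i (N1 r x)] x)) (upoly_N1 r) ?_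
  exact (poly_anch P r).comp (poly_iter P.poly_G P.length_G (NPC.Poly.fst NPC.Poly.id)
    (NPC.Poly.snd NPC.Poly.id) ((upoly_N1 r).comp (NPC.Poly.fst NPC.Poly.id)))

theorem poly_fw : NPC.Poly (fw P r) := by
  refine poly_lst (p := fun x i => anch P r (P.F^[min (i + 1) (N1 r x)] x)) (upoly_N1 r) ?_
  exact (poly_anch P r).comp (poly_iter P.poly_F P.length_F (NPC.Poly.fst NPC.Poly.id)
    (NPC.Poly.add (NPC.Poly.snd NPC.Poly.id) (NPC.Poly.const 1))
    ((upoly_N1 r).comp (NPC.Poly.fst NPC.Poly.id)))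

theorem poly_gap : NPC.Poly (gap P r) :=
  NPC.Poly.add (NPC.Poly.add (poly_bk P r) (poly_fw P r)) (NPC.Poly.const 1)

end PolyLemmas

theorem getD_range_map' {β : Type} (n : ℕ) (f : ℕ → β) (d : β) (i : ℕ) (h : i < n) :
    ((List.range n).map f).getD i d = f i := by
  simp [List.getD_eq_getElem?_getD, h]

section Main

variable {k : ℕ} {E : Fin k → Fin k → Prop} (P : PPerm) (n : ℕ) (w1 w2 : ℕ → Fin k)
  (tb : ℕ → ℕ → Fin k)

/-- the labels -/
noncomputable def Wf (g i : ℕ) : Fin k :=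
  if g ≤ n * (n + 1) then tb g i else wk n w1 w2 g i

/-- the labelling -/
noncomputable def lab (x : List Bool) : Fin k :=
  Wf n w1 w2 tb (gap P (n * (n + 1)) x) (bk P (n * (n + 1)) x)

/-- the labels, as numbers -/
noncomputable def lv (x : List Bool) : ℕ :=
  bif decide (gap P (n * (n + 1)) x ≤ n * (n + 1)) then
    (((List.range (n * (n + 1) + 1)).map fun g => (List.range (n * (n + 1) + 1)).map fun i =>
      (tb g i).val).getD (gap P (n * (n + 1)) x) []).getD (bk P (n * (n + 1)) x) 0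
  else bif decide (bk P (n * (n + 1)) x < (gap P (n * (n + 1)) x % n) * (n + 1)) then
    ((List.range (n + 1)).map fun i => (w2 i).val).getD (bk P (n * (n + 1)) x % (n + 1)) 0
  else ((List.range n).map fun i => (w1 i).val).getD
    ((bk P (n * (n + 1)) x - (gap P (n * (n + 1)) x % n) * (n + 1)) % n) 0

theorem lv_eq (hn : 0 < n) (x : List Bool) : lv P n w1 w2 tb x = (lab P n w1 w2 tb x).val := by
  have hb : bk P (n * (n + 1)) x < gap P (n * (n + 1)) x := by unfold gap; omega
  unfold lv lab Wf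
  by_cases h : gap P (n * (n + 1)) x ≤ n * (n + 1)
  · simp only [h, decide_true, cond_true, if_true]
    rw [getD_range_map' _ _ _ _ (by omega), getD_range_map' _ _ _ _ (by omega)]
  · simp only [h, decide_false, cond_false, if_false]
    unfold wk
    by_cases h2 : bk P (n * (n + 1)) x < (gap P (n * (n + 1)) x % n) * (n + 1)
    · simp only [h2, decide_true, cond_true, if_true]
      rw [getD_range_map' _ _ _ _ (Nat.mod_lt _ (Nat.succ_pos n))]
    · simp only [h2, decide_false, cond_false, if_false]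
      rw [getD_range_map' _ _ _ _ (Nat.mod_lt _ hn)]

theorem poly_lv : NPC.Poly (lv P n w1 w2 tb) := by
  have hg := poly_gap P (n * (n + 1))
  have hb := poly_bk P (n * (n + 1))
  have hm := NPC.Poly.mul (NPC.Poly.mod hg (NPC.Poly.const n)) (NPC.Poly.const (n + 1))
  exact NPC.Poly.cond (NPC.Poly.decide_le hg (NPC.Poly.const _))
    (NPC.Poly.getD (NPC.Poly.getD (NPC.Poly.const _) hg (NPC.Poly.const [])) hb
      (NPC.Poly.const 0))
    (NPC.Poly.cond (NPC.Poly.decide_lt hb hm)
      (NPC.Poly.getD (NPC.Poly.const _) (NPC.Poly.mod hb (NPC.Poly.const _)) (NPC.Poly.const 0))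
      (NPC.Poly.getD (NPC.Poly.const _) (NPC.Poly.mod (NPC.Poly.sub hb hm) (NPC.Poly.const _))
        (NPC.Poly.const 0)))

open Classical in
theorem inP_class {c : List Bool → Fin k} {l : List Bool → ℕ} (hl : NPC.Poly l)
    (h : ∀ x, l x = (c x).val) (T : Set (Fin k)) : InP {x | x ∈ P.X ∧ c x ∈ T} := by
  let t : List Bool := (List.range k).map fun i => decide (∃ h : i < k, (⟨i, h⟩ : Fin k) ∈ T)
  have ht : ∀ v : Fin k, t.getD v.val false = decide (v ∈ T) := by
    intro v
    rw [getD_range_map' _ _ _ _ v.2, decide_eq_decide]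
    exact ⟨fun ⟨_, h⟩ => h, fun h => ⟨v.2, h⟩⟩
  refine ⟨fun x => [P.b x && t.getD (l x) false], polyTime_of_poly
    (NPC.Poly.and P.poly_b (NPC.Poly.getD (NPC.Poly.const _) hl (NPC.Poly.const _))), fun x => ?_⟩
  simp only [Set.mem_ofPred_eq, List.cons.injEq, and_true, Bool.and_eq_true, ← P.b_iff, h, ht,
    decide_eq_true_iff]

variable {P n w1 w2 tb}

theorem lab_step {v : Fin k} (h10 : w1 0 = v) (h1n : w1 n = v)
    (hw1 : ∀ i < n, E (w1 i) (w1 (i + 1))) (h20 : w2 0 = v) (h2n : w2 (n + 1) = v)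
    (hw2 : ∀ i < n + 1, E (w2 i) (w2 (i + 1))) (hn : 0 < n) {x : List Bool}
    (htb : tb (P.N x) (P.N x) = tb (P.N x) 0 ∧ ∀ i < P.N x, E (tb (P.N x) i) (tb (P.N x) (i + 1))) :
    E (lab P n w1 w2 tb x) (lab P n w1 w2 tb (P.F x)) := by
  have hFz : P.F x = (P.e ^ (1 : ℤ)) x := by rw [zpow_one]; rfl
  unfold lab
  cases hs : shrt P (n * (n + 1)) x with
  | true =>
    have hs' : shrt P (n * (n + 1)) (P.F x) = true := by rw [hFz, shrt_zpow]; exact hs
    have g1 := gap_short P hs
    have g2 := gap_short P hs'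
    have hN : P.N (P.F x) = P.N x := by
      unfold PPerm.N
      exact Function.minimalPeriod_apply (P.isPeriodicPt x)
    rw [hN] at g2
    have hr : P.N x ≤ n * (n + 1) := by
      obtain ⟨j, h0, hj, h⟩ := (shrt_iff P).1 hs
      have h1 : Function.IsPeriodicPt P.F j x := h
      exact (h1.minimalPeriod_le h0).trans hj
    rw [g1, g2]
    unfold Wf
    rw [if_pos hr, if_pos hr]
    cases ha : anch P (n * (n + 1)) (P.F x) with
    | true =>
      obtain ⟨h1, h2⟩ := step_anch P ha
      rw [h1]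
      have h3 : bk P (n * (n + 1)) x + 1 = P.N x := by
        rw [← g1]; unfold gap; omega
      have h4 := htb.2 (bk P (n * (n + 1)) x) (by omega)
      rw [h3, htb.1] at h4
      exact h4
    | false =>
      obtain ⟨h1, h2⟩ := step_not P ha
      rw [h1]
      apply htb.2
      rw [← g1]; unfold gap; omega
  | false =>
    have hs' : shrt P (n * (n + 1)) (P.F x) = false := by rw [hFz, shrt_zpow]; exact hs
    have g1 := gap_long P hs
    have g2 := gap_long P hs'
    unfold Wf
    rw [if_neg (by omega), if_neg (by omega)]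
    have h5 := wk_step h10 h1n hw1 h20 h2n hw2 hn (gap P (n * (n + 1)) x) (bk P (n * (n + 1)) x)
    cases ha : anch P (n * (n + 1)) (P.F x) with
    | true =>
      obtain ⟨h1, h2⟩ := step_anch P ha
      rw [h1, wk_zero h10 h20]
      have h3 : bk P (n * (n + 1)) x + 1 = gap P (n * (n + 1)) x := by
        unfold gap; omega
      rw [h3, wk_end h10 hn g1.le] at h5
      exact h5
    | false =>
      obtain ⟨h1, h2⟩ := step_not P ha
      have h3 : gap P (n * (n + 1)) (P.F x) = gap P (n * (n + 1)) x := by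
        unfold gap; omega
      rw [h1, h3]
      exact h5

end Main

/-- **Flexible graphs.** Every polynomial-time permutation that has an `E`-labelling has one
whose classes are in `P`. -/
theorem easy {k : ℕ} {E : Fin k → Fin k → Prop} (hE : Flexible E) (P : PPerm)
    (h : ∃ c, IsLabelling E P c) :
    ∃ c, IsLabelling E P c ∧ ∀ T : Set (Fin k), InP {x | x ∈ P.X ∧ c x ∈ T} := by
  classical
  obtain ⟨c0, hc0⟩ := h
  obtain ⟨v, n, hn, ⟨w1, h10, h1n, hw1⟩, ⟨w2, h20, h2n, hw2⟩⟩ := hE.exists_pos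
  have htb : ∀ g, ∃ w : ℕ → Fin k, (∃ u, Walk E g u u) → w g = w 0 ∧ ∀ i < g, E (w i) (w (i + 1)) := by
    intro g
    by_cases hg : ∃ u, Walk E g u u
    · obtain ⟨u, w, a0, a1, a2⟩ := hg
      exact ⟨w, fun _ => ⟨a1.trans a0.symm, a2⟩⟩
    · exact ⟨fun _ => v, fun h => absurd h hg⟩
  choose tb htb using htb
  refine ⟨lab P n w1 w2 tb, fun x hx => ?_, inP_class P (poly_lv P n w1 w2 tb)
    (lv_eq P n w1 w2 tb hn)⟩
  rw [← P.F_mem hx]
  refine lab_step h10 h1n hw1 h20 h2n hw2 hn (htb _ ⟨c0 x, ?_⟩)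
  have h1 := Walk.of_iterate (fun y hy => P.mem_F hy) (c := c0) (E := E)
    (fun y hy => by rw [P.F_mem hy]; exact hc0 y hy) hx (P.N x)
  rwa [P.iter_N] at h1

end Pool.Agent.V7H67.LL
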