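import Pool.Agent.V7H67.LL.Auto

/-!
# A labelling in polynomial space
-/

namespace Pool.Agent.V7H67.LL

open Pool.Agent.NPC Pool.Agent.NPC.PIso

variable {k : ℕ} (E : Fin k → Fin k → Prop)

theorem walk_succ {n : ℕ} {u w : Fin k} :
    Walk E (n + 1) u w ↔ ∃ z, E z w ∧ Walk E n u z := by
  constructor
  · rintro ⟨f, h0, h1, h2⟩
    exact ⟨f n, h1 ▸ h2 n (Nat.lt_succ_self n), f, h0, rfl, fun i hi => h2 i (by omega)⟩
  · rintro ⟨z, hz, h⟩
    refine h.add ⟨fun i => if i = 0 then z else w, by simp, by simp, fun i hi => ?_⟩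
    have : i = 0 := by omega
    subst this
    simpa using hz

theorem walk_zero {u w : Fin k} : Walk E 0 u w ↔ w = u := by
  constructor
  · rintro ⟨f, h0, h1, _⟩; rw [← h0, ← h1]
  · rintro rfl; exact Walk.zero _

open Classical in
/-- a choice of an element of a set, with a default -/
noncomputable def sl (U : Set (Fin k)) (d : Fin k) : Fin k := if h : U.Nonempty then h.choose else d

theorem sl_mem {U : Set (Fin k)} (h : U.Nonempty) (d : Fin k) : sl U d ∈ U := by
  unfold sl
  rw [dif_pos h]
  exact h.choose_spec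

/-- the states: for a first vertex and a present vertex, the vertex at the marked position -/
abbrev Sta (k : ℕ) := Fin k → Fin k → Option (Fin k)

/-- the initial state -/
def sI : Sta k := fun v0 u => if u = v0 then some v0 else none

/-- the marking action -/
def sB (t : Sta k) : Sta k := fun v0 u => (t v0 u).map fun _ => u

open Classical in
/-- the transition -/
noncomputable def sA (t : Sta k) : Sta k := fun v0 u' =>
  if {u | E u u' ∧ (t v0 u).isSome = true}.Nonempty then
    t v0 (sl {u | E u u' ∧ (t v0 u).isSome = true} u') else none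

/-- the state knows which vertices are reachable -/
def Kn (j : ℕ) (t : Sta k) : Prop := ∀ v0 u, (t v0 u).isSome = true ↔ Walk E j v0 u

theorem kn_sI : Kn E 0 (sI : Sta k) := by
  intro v0 u
  rw [walk_zero]
  unfold sI
  by_cases h : u = v0 <;> simp [h]

theorem kn_sB {j : ℕ} {t : Sta k} (h : Kn E j t) : Kn E j (sB t) := by
  intro v0 u
  rw [← h]
  simp [sB]

theorem kn_set {j : ℕ} {t : Sta k} (h : Kn E j t) (v0 u' : Fin k) :
    {u | E u u' ∧ (t v0 u).isSome = true} = {u | E u u' ∧ Walk E j v0 u} := by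
  ext u
  simp only [Set.mem_ofPred_eq, h v0 u]

theorem kn_sA {j : ℕ} {t : Sta k} (h : Kn E j t) : Kn E (j + 1) (sA E t) := by
  intro v0 u'
  rw [walk_succ]
  unfold sA
  by_cases hn : {u | E u u' ∧ (t v0 u).isSome = true}.Nonempty
  · rw [if_pos hn]
    have h1 := sl_mem hn u'
    constructor
    · intro _
      obtain ⟨z, h2, h3⟩ := hn
      exact ⟨z, h2, (h v0 z).1 h3⟩
    · intro _
      exact h1.2
  · rw [if_neg hn]
    simp only [Option.isSome_none, Bool.false_eq_true, false_iff]
    rintro ⟨z, h2, h3⟩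
    exact hn ⟨z, h2, (h v0 z).2 h3⟩

/-- the canonical closed walk of length `N` from `v0`, seen from the end -/
noncomputable def bw (N : ℕ) (v0 : Fin k) : ℕ → Fin k
  | 0 => v0
  | m + 1 => sl {u | E u (bw N v0 m) ∧ Walk E (N - m - 1) v0 u} (bw N v0 m)

/-- the canonical closed walk -/
noncomputable def cw (N : ℕ) (v0 : Fin k) (i : ℕ) : Fin k := bw E N v0 (N - i)

theorem cw_end (N : ℕ) (v0 : Fin k) : cw E N v0 N = v0 := by simp [cw, bw]

theorem cw_succ {N : ℕ} {v0 : Fin k} {i : ℕ} (hi : i < N) :
    cw E N v0 i = sl {u | E u (cw E N v0 (i + 1)) ∧ Walk E i v0 u} (cw E N v0 (i + 1)) := by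
  unfold cw
  obtain ⟨m, hm⟩ : ∃ m, N - i = m + 1 := ⟨N - i - 1, by omega⟩
  have h1 : N - (i + 1) = m := by omega
  have h2 : N - m - 1 = i := by omega
  rw [hm, h1]
  simp only [bw]
  rw [h2]

theorem cw_walk {N : ℕ} {v0 : Fin k} (h : Walk E N v0 v0) : ∀ m ≤ N,
    Walk E (N - m) v0 (cw E N v0 (N - m)) := by
  intro m
  induction m with
  | zero => intro _; rw [Nat.sub_zero, cw_end]; exact h
  | succ m ih =>
    intro hm
    have h1 := ih (by omega)
    obtain ⟨i, hi⟩ : ∃ i, N - m = i + 1 := ⟨N - m - 1, by omega⟩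
    have h2 : N - (m + 1) = i := by omega
    rw [hi] at h1
    rw [h2, cw_succ E (by omega)]
    exact (sl_mem ((walk_succ E).1 h1) _).2

theorem cw_edge {N : ℕ} {v0 : Fin k} (h : Walk E N v0 v0) {i : ℕ} (hi : i < N) :
    E (cw E N v0 i) (cw E N v0 (i + 1)) ∧ Walk E i v0 (cw E N v0 i) := by
  have h1 := cw_walk E h (N - (i + 1)) (by omega)
  rw [Nat.sub_sub_self (by omega)] at h1
  rw [cw_succ E hi]
  exact sl_mem ((walk_succ E).1 h1) _

theorem cw_zero {N : ℕ} {v0 : Fin k} (h : Walk E N v0 v0) : cw E N v0 0 = v0 := by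
  have h1 := cw_walk E h N le_rfl
  rw [Nat.sub_self] at h1
  exact (walk_zero E).1 h1

theorem kn_iter {j m : ℕ} {t : Sta k} (h : Kn E j t) : Kn E (j + m) ((sA E)^[m] t) := by
  induction m with
  | zero => exact h
  | succ m ih =>
    rw [Function.iterate_succ_apply']
    exact kn_sA E ih

/-- the final state knows the marked vertex of the canonical walk -/
theorem final_value {N i : ℕ} {v0 : Fin k} (h : Walk E N v0 v0) (hi : i < N) :
    ((sA E)^[N - i] (sB ((sA E)^[i] sI))) v0 v0 = some (cw E N v0 i) := by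
  have h0 : Kn E i ((sA E)^[i] (sI : Sta k)) := by
    have := kn_iter E (m := i) (kn_sI E (k := k))
    rwa [Nat.zero_add] at this
  have key : ∀ m, i + m ≤ N → ((sA E)^[m] (sB ((sA E)^[i] sI))) v0 (cw E N v0 (i + m)) =
      some (cw E N v0 i) := by
    intro m
    induction m with
    | zero =>
      intro _
      have h1 := (h0 v0 (cw E N v0 i)).2 (cw_edge E h hi).2
      obtain ⟨z, hz⟩ := Option.isSome_iff_exists.1 h1
      simp only [Function.iterate_zero, id_eq, Nat.add_zero, sB, hz, Option.map_some]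
    | succ m ih =>
      intro hm
      have h1 : Kn E (i + m) ((sA E)^[m] (sB ((sA E)^[i] (sI : Sta k)))) :=
        kn_iter E (kn_sB E h0)
      have h2 := ih (by omega)
      rw [Function.iterate_succ_apply']
      set t := (sA E)^[m] (sB ((sA E)^[i] (sI : Sta k))) with ht
      unfold sA
      rw [kn_set E h1]
      have h3 := cw_edge E h (i := i + m) (by omega)
      rw [if_pos ⟨_, h3⟩]
      have h4 : sl {u | E u (cw E N v0 (i + (m + 1))) ∧ Walk E (i + m) v0 u}
          (cw E N v0 (i + (m + 1))) = cw E N v0 (i + m) :=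
        (cw_succ E (i := i + m) (by omega)).symm
      rw [h4]
      exact h2
  have h1 := key (N - i) (by omega)
  rw [show i + (N - i) = N by omega, cw_end] at h1
  exact h1

/-- reading the label from the final state -/
noncomputable def rd (d : Fin k) (t : Sta k) : Fin k :=
  (t (sl {v | (t v v).isSome = true} d) (sl {v | (t v v).isSome = true} d)).getD d

variable (P : PPerm)

/-- the labelling -/
noncomputable def labU (d : Fin k) (x : List Bool) : Fin k :=
  rd d (fin P (sI : Sta k) (sA E) sB x)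

theorem labU_eq {d : Fin k} {x : List Bool} (h : ∃ v, Walk E (P.N x) v v) :
    labU E P d x = cw E (P.N x) (sl {v | Walk E (P.N x) v v} d) (idx P x) := by
  have hi := idx_lt P x
  have h0 : Kn E (idx P x) ((sA E)^[idx P x] (sI : Sta k)) := by
    have := kn_iter E (m := idx P x) (kn_sI E (k := k))
    rwa [Nat.zero_add] at this
  have h1 : Kn E (P.N x) (fin P (sI : Sta k) (sA E) sB x) := by
    unfold fin
    have := kn_iter E (m := P.N x - idx P x) (kn_sB E h0)
    rwa [show idx P x + (P.N x - idx P x) = P.N x by omega] at this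
  have h2 : {v | ((fin P (sI : Sta k) (sA E) sB x) v v).isSome = true} =
      {v | Walk E (P.N x) v v} := by
    ext v
    simp only [Set.mem_ofPred_eq, h1 v v]
  unfold labU rd
  rw [h2]
  have h3 : Walk E (P.N x) (sl {v | Walk E (P.N x) v v} d) (sl {v | Walk E (P.N x) v v} d) :=
    sl_mem (U := {v | Walk E (P.N x) v v}) h d
  have h4 := final_value E h3 hi
  unfold fin
  rw [h4]
  rfl

theorem labU_step {d : Fin k} {x : List Bool} (h : ∃ v, Walk E (P.N x) v v) :
    E (labU E P d x) (labU E P d (P.F x)) := by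
  have h' : ∃ v, Walk E (P.N (P.F x)) v v := by rw [N_F]; exact h
  rw [labU_eq E P h, labU_eq E P h', N_F, idx_F]
  have h3 : Walk E (P.N x) (sl {v | Walk E (P.N x) v v} d) (sl {v | Walk E (P.N x) v v} d) :=
    sl_mem (U := {v | Walk E (P.N x) v v}) h d
  have hi := idx_lt P x
  have h4 := (cw_edge E h3 hi).1
  split_ifs with h5
  · exact h4
  · have h6 : idx P x + 1 = P.N x := by omega
    rw [h6, cw_end] at h4
    rw [cw_zero E h3]
    exact h4

/-- **Upper bound.** Every polynomial-time permutation that has an `E`-labelling has one whose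
classes are in `PSPACE`. -/
theorem upper (h : ∃ c, IsLabelling E P c) :
    ∃ c, IsLabelling E P c ∧ ∀ T : Set (Fin k), InPSPACE {x | x ∈ P.X ∧ c x ∈ T} := by
  classical
  obtain ⟨c0, hc0⟩ := h
  refine ⟨labU E P (c0 []), fun x hx => ?_, fun T => ?_⟩
  · rw [← P.F_mem hx]
    apply labU_step
    refine ⟨c0 x, ?_⟩
    have h1 := Walk.of_iterate (fun y hy => P.mem_F hy) (c := c0) (E := E)
      (fun y hy => by rw [P.F_mem hy]; exact hc0 y hy) hx (P.N x)
    rwa [P.iter_N] at h1
  · have h1 := inPSPACE_fin P (sI : Sta k) (sA E) sB (fun t => decide (rd (c0 []) t ∈ T))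
    simpa [labU] using h1

end Pool.Agent.V7H67.LL
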