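import Pool.Agent.V7H67.LL.Code

/-!
# Anchors on the cycles of a polynomial-time permutation
-/

namespace Pool.Agent.V7H67.LL

open Pool.Agent.NPC Pool.Agent.NPC.PIso

variable (P : PPerm) (r : ℕ)

/-- the point lies on a cycle of length at most `r` -/
noncomputable def shrt (x : List Bool) : Bool :=
  (List.range r).any fun j => decide (P.F^[min (j + 1) r] x = x)

/-- anchors: on short cycles the least point, on long cycles the points whose colour is smaller
than the colours of all points at distance at most `r` -/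
noncomputable def anch (x : List Bool) : Bool :=
  bif shrt P r x then (List.range r).all fun j => decide (valB x ≤ valB (P.F^[min (j + 1) r] x))
  else (List.range r).all fun j => decide (chi P r x < chi P r (P.F^[min (j + 1) r] x)) &&
    decide (chi P r x < chi P r (P.G^[min (j + 1) r] x))

variable {r}

theorem shrt_iff {x : List Bool} : shrt P r x = true ↔ ∃ j, 0 < j ∧ j ≤ r ∧ P.F^[j] x = x := by
  unfold shrt
  rw [List.any_eq_true]
  constructor
  · rintro ⟨j, hj, h⟩
    rw [List.mem_range] at hj
    rw [decide_eq_true_iff, min_eq_left (by omega)] at h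
    exact ⟨j + 1, by omega, by omega, h⟩
  · rintro ⟨j, h0, hj, h⟩
    refine ⟨j - 1, List.mem_range.2 (by omega), ?_⟩
    rw [decide_eq_true_iff, min_eq_left (by omega), show j - 1 + 1 = j by omega]
    exact h

theorem anch_short {x : List Bool} (h : shrt P r x = true) :
    anch P r x = true ↔ ∀ j, 0 < j → j ≤ r → valB x ≤ valB (P.F^[j] x) := by
  unfold anch
  rw [h, cond_true, List.all_eq_true]
  constructor
  · intro h j h0 hj
    have := h (j - 1) (List.mem_range.2 (by omega))
    rw [decide_eq_true_iff, min_eq_left (by omega), show j - 1 + 1 = j by omega] at this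
    exact this
  · intro h j hj
    rw [List.mem_range] at hj
    rw [decide_eq_true_iff, min_eq_left (by omega)]
    exact h (j + 1) (by omega) (by omega)

theorem anch_long {x : List Bool} (h : shrt P r x = false) :
    anch P r x = true ↔ ∀ j, 0 < j → j ≤ r → chi P r x < chi P r (P.F^[j] x) ∧
      chi P r x < chi P r (P.G^[j] x) := by
  unfold anch
  rw [h, cond_false, List.all_eq_true]
  constructor
  · intro h j h0 hj
    have := h (j - 1) (List.mem_range.2 (by omega))
    rw [Bool.and_eq_true, decide_eq_true_iff, decide_eq_true_iff, min_eq_left (by omega),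
      show j - 1 + 1 = j by omega] at this
    exact this
  · intro h j hj
    rw [List.mem_range] at hj
    rw [Bool.and_eq_true, decide_eq_true_iff, decide_eq_true_iff, min_eq_left (by omega)]
    exact h (j + 1) (by omega) (by omega)

theorem F_zpow (k : ℤ) (x : List Bool) (j : ℕ) :
    P.F^[j] ((P.e ^ k) x) = (P.e ^ k) (P.F^[j] x) := by
  rw [P.iter_eq_zpow, P.iter_eq_zpow, ← Equiv.Perm.mul_apply, ← Equiv.Perm.mul_apply,
    (Commute.refl P.e).zpow_zpow k j |>.eq]

theorem shrt_zpow (k : ℤ) (x : List Bool) : shrt P r ((P.e ^ k) x) = shrt P r x := by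
  rw [Bool.eq_iff_iff, shrt_iff, shrt_iff]
  refine exists_congr fun j => and_congr_right fun _ => and_congr_right fun _ => ?_
  rw [F_zpow]
  exact (P.e ^ k).injective.eq_iff

theorem length_zpow (k : ℤ) (x : List Bool) : ((P.e ^ k) x).length = x.length := by
  obtain ⟨n, rfl | rfl⟩ := Int.eq_nat_or_neg k
  · rw [← P.iter_eq_zpow, P.length_iter]
  · rw [← P.iterG_eq_zpow, P.length_iterG]

theorem exists_long : ∀ (m : ℕ) (x : List Bool), chi P r x = m → shrt P r x = false →
    ∃ k : ℤ, |k| ≤ (r * m : ℕ) ∧ anch P r ((P.e ^ k) x) = true := by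
  intro m
  induction m using Nat.strong_induction_on with
  | _ m ih =>
    intro x hm hx
    by_cases ha : anch P r x = true
    · exact ⟨0, by rw [abs_zero]; positivity, by simpa using ha⟩
    · have ha' := ha
      rw [anch_long P hx] at ha'
      push Not at ha'
      obtain ⟨j, h0, hj, hc⟩ := ha'
      have hne : ∀ y : List Bool, shrt P r y = false → P.F^[j] y ≠ y := by
        intro y hy h
        have : shrt P r y = true := (shrt_iff P).2 ⟨j, h0, hj, h⟩
        rw [hy] at this
        exact absurd this (by simp)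
      have key : ∃ s : ℤ, |s| ≤ r ∧ chi P r ((P.e ^ s) x) < m := by
        by_cases h1 : chi P r x < chi P r (P.F^[j] x)
        · have h2 := hc h1
          refine ⟨-(j : ℤ), by rw [abs_neg, Nat.abs_cast]; exact_mod_cast hj, ?_⟩
          rw [← P.iterG_eq_zpow]
          have h3 : P.F^[j] (P.G^[j] x) = x := by
            rw [P.iterG_eq_zpow, P.iter_eq_zpow, ← Equiv.Perm.mul_apply, ← zpow_add]
            simp
          have h4 : shrt P r (P.G^[j] x) = false := by
            rw [P.iterG_eq_zpow, shrt_zpow]; exact hx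
          have h5 := chi_ne P h0 hj (hne _ h4)
          rw [h3] at h5
          omega
        · refine ⟨(j : ℤ), by rw [Nat.abs_cast]; exact_mod_cast hj, ?_⟩
          rw [← P.iter_eq_zpow]
          have h5 := chi_ne P h0 hj (hne _ hx)
          omega
      obtain ⟨s, hs, hs'⟩ := key
      obtain ⟨k, hk, hk'⟩ := ih _ hs' ((P.e ^ s) x) rfl (by rw [shrt_zpow]; exact hx)
      refine ⟨k + s, ?_, ?_⟩
      · have h1 := abs_add_le k s
        have h2 : r * chi P r ((P.e ^ s) x) + r ≤ r * m := by
          calc r * chi P r ((P.e ^ s) x) + r = r * (chi P r ((P.e ^ s) x) + 1) := by ring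
            _ ≤ r * m := Nat.mul_le_mul_left _ hs'
        have h3 : ((r * chi P r ((P.e ^ s) x) : ℕ) : ℤ) + r ≤ ((r * m : ℕ) : ℤ) := by exact_mod_cast h2
        omega
      · rw [zpow_add, Equiv.Perm.mul_apply]
        exact hk'

/-- on a short cycle, the values at all iterates are the values at the first `r` ones -/
theorem short_iter {x : List Bool} (h : shrt P r x = true) (n : ℕ) :
    ∃ i, i < r ∧ P.F^[n] x = P.F^[i] x := by
  obtain ⟨p, h0, hp, h1⟩ := (shrt_iff P).1 h
  refine ⟨n % p, (Nat.mod_lt _ h0).trans_le hp, ?_⟩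
  have h2 : Function.IsPeriodicPt P.F p x := h1
  exact h2.iterate_mod_apply n |>.symm

theorem anch_min {x : List Bool} (h : shrt P r x = true) (ha : anch P r x = true) (n : ℕ) :
    valB x ≤ valB (P.F^[n] x) := by
  obtain ⟨i, hi, he⟩ := short_iter P h n
  rw [he]
  rcases Nat.eq_zero_or_pos i with rfl | h0
  · exact le_rfl
  · exact (anch_short P h).1 ha i h0 hi.le

theorem exists_short {x : List Bool} (h : shrt P r x = true) :
    ∃ k : ℤ, |k| ≤ r ∧ anch P r ((P.e ^ k) x) = true := by
  classical
  have hex : ∃ v, ∃ n, valB (P.F^[n] x) = v := ⟨_, 0, rfl⟩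
  obtain ⟨n, hn⟩ := Nat.find_spec hex
  obtain ⟨i, hi, he⟩ := short_iter P h n
  refine ⟨i, by rw [Nat.abs_cast]; exact_mod_cast hi.le, ?_⟩
  have hs : shrt P r ((P.e ^ (i : ℤ)) x) = true := by rw [shrt_zpow]; exact h
  rw [anch_short P hs]
  intro j _ _
  rw [← P.iter_eq_zpow, ← Function.iterate_add_apply, ← he, hn]
  exact Nat.find_min' hex ⟨_, rfl⟩

variable (r)

/-- a bound for the distance to the next anchor -/
def B0 (x : List Bool) : ℕ := r * (2 * x.length + 1) ^ r + r

variable {r}

theorem exists_anch (x : List Bool) :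
    ∃ k : ℤ, |k| ≤ B0 r x ∧ anch P r ((P.e ^ k) x) = true := by
  cases h : shrt P r x with
  | true =>
    obtain ⟨k, h1, h2⟩ := exists_short P h
    refine ⟨k, ?_, h2⟩
    have : (r : ℤ) ≤ B0 r x := by exact_mod_cast Nat.le_add_left _ _
    omega
  | false =>
    obtain ⟨k, h1, h2⟩ := exists_long P _ x rfl h
    refine ⟨k, ?_, h2⟩
    have h3 : r * chi P r x ≤ B0 r x :=
      (Nat.mul_le_mul_left _ (chi_lt P r x).le).trans (Nat.le_add_right _ _)
    have : ((r * chi P r x : ℕ) : ℤ) ≤ B0 r x := by exact_mod_cast h3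
    omega

variable (r)

/-- the range of the search -/
def N1 (x : List Bool) : ℕ := 2 * B0 r x + 2

/-- the number of steps back to the last anchor -/
noncomputable def bk (x : List Bool) : ℕ :=
  lst (N1 r x) fun i => anch P r (P.G^[min i (N1 r x)] x)

/-- one less than the number of steps to the next anchor -/
noncomputable def fw (x : List Bool) : ℕ :=
  lst (N1 r x) fun i => anch P r (P.F^[min (i + 1) (N1 r x)] x)

variable {r}

theorem bk_spec (x : List Bool) : anch P r (P.G^[bk P r x] x) = true ∧
    ∀ i < bk P r x, anch P r (P.G^[i] x) = false := by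
  obtain ⟨k, h1, h2⟩ := exists_anch P (r := r) ((P.e ^ (-(B0 r x : ℤ))) x)
  have hB : B0 r ((P.e ^ (-(B0 r x : ℤ))) x) = B0 r x := by
    unfold B0; rw [length_zpow]
  rw [hB] at h1
  obtain ⟨a1, a2⟩ := abs_le.1 h1
  obtain ⟨i, hi⟩ : ∃ i : ℕ, (i : ℤ) = B0 r x - k := ⟨(B0 r x - k).toNat, by omega⟩
  have h3 : anch P r (P.G^[i] x) = true := by
    rw [P.iterG_eq_zpow, hi]
    rw [← Equiv.Perm.mul_apply, ← zpow_add] at h2
    rwa [show -((B0 r x : ℤ) - k) = k + -(B0 r x : ℤ) by ring]
  obtain ⟨b1, b2, b3⟩ := lst_spec (N := N1 r x)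
    (p := fun i => anch P r (P.G^[min i (N1 r x)] x)) ⟨i, by unfold N1; omega, by
      rw [min_eq_left (by unfold N1; omega)]
      exact h3⟩
  change anch P r (P.G^[min (bk P r x) (N1 r x)] x) = true at b1
  change bk P r x < N1 r x at b2
  rw [min_eq_left b2.le] at b1
  refine ⟨b1, fun j hj => ?_⟩
  have b4 := b3 j hj
  rwa [min_eq_left (by omega)] at b4

theorem fw_spec (x : List Bool) : anch P r (P.F^[fw P r x + 1] x) = true ∧
    ∀ i < fw P r x, anch P r (P.F^[i + 1] x) = false := by
  obtain ⟨k, h1, h2⟩ := exists_anch P (r := r) ((P.e ^ ((B0 r x : ℤ) + 1)) x)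
  have hB : B0 r ((P.e ^ ((B0 r x : ℤ) + 1)) x) = B0 r x := by
    unfold B0; rw [length_zpow]
  rw [hB] at h1
  obtain ⟨a1, a2⟩ := abs_le.1 h1
  obtain ⟨i, hi⟩ : ∃ i : ℕ, ((i + 1 : ℕ) : ℤ) = B0 r x + 1 + k :=
    ⟨(B0 r x + k).toNat, by push_cast; omega⟩
  have h3 : anch P r (P.F^[i + 1] x) = true := by
    rw [P.iter_eq_zpow, hi]
    rw [← Equiv.Perm.mul_apply, ← zpow_add] at h2
    rwa [show (B0 r x : ℤ) + 1 + k = k + ((B0 r x : ℤ) + 1) by ring]
  obtain ⟨b1, b2, b3⟩ := lst_spec (N := N1 r x)
    (p := fun i => anch P r (P.F^[min (i + 1) (N1 r x)] x)) ⟨i, by unfold N1; omega, by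
      rw [min_eq_left (by unfold N1; omega)]
      exact h3⟩
  change anch P r (P.F^[min (fw P r x + 1) (N1 r x)] x) = true at b1
  change fw P r x < N1 r x at b2
  rw [min_eq_left b2] at b1
  refine ⟨b1, fun j hj => ?_⟩
  have b4 := b3 j hj
  rwa [min_eq_left (by omega)] at b4

theorem bk_unique {x : List Bool} {j : ℕ} (h1 : anch P r (P.G^[j] x) = true)
    (h2 : ∀ i < j, anch P r (P.G^[i] x) = false) : bk P r x = j := by
  obtain ⟨h3, h4⟩ := bk_spec P (r := r) x
  rcases Nat.lt_trichotomy (bk P r x) j with h | h | h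
  · rw [h2 _ h] at h3; exact absurd h3 (by simp)
  · exact h
  · rw [h4 _ h] at h1; exact absurd h1 (by simp)

theorem fw_unique {x : List Bool} {j : ℕ} (h1 : anch P r (P.F^[j + 1] x) = true)
    (h2 : ∀ i < j, anch P r (P.F^[i + 1] x) = false) : fw P r x = j := by
  obtain ⟨h3, h4⟩ := fw_spec P (r := r) x
  rcases Nat.lt_trichotomy (fw P r x) j with h | h | h
  · rw [h2 _ h] at h3; exact absurd h3 (by simp)
  · exact h
  · rw [h4 _ h] at h1; exact absurd h1 (by simp)

theorem step_anch {x : List Bool} (h : anch P r (P.F x) = true) :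
    bk P r (P.F x) = 0 ∧ fw P r x = 0 :=
  ⟨bk_unique P h fun i hi => by omega, fw_unique P h fun i hi => by omega⟩

theorem step_not {x : List Bool} (h : anch P r (P.F x) = false) :
    bk P r (P.F x) = bk P r x + 1 ∧ fw P r x = fw P r (P.F x) + 1 := by
  constructor
  · obtain ⟨h1, h2⟩ := bk_spec P (r := r) x
    refine bk_unique P ?_ fun i hi => ?_
    · rw [Function.iterate_succ_apply, P.G_F]; exact h1
    · cases i with
      | zero => exact h
      | succ i => rw [Function.iterate_succ_apply, P.G_F]; exact h2 i (by omega)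
  · obtain ⟨h1, h2⟩ := fw_spec P (r := r) (P.F x)
    refine fw_unique P ?_ fun i hi => ?_
    · rw [Function.iterate_succ_apply]; exact h1
    · cases i with
      | zero => exact h
      | succ i => rw [Function.iterate_succ_apply]; exact h2 i (by omega)

variable (r)

/-- the distance between the two anchors around a point -/
noncomputable def gap (x : List Bool) : ℕ := bk P r x + fw P r x + 1

variable {r}

/-- from the last anchor to the next one -/
theorem gap_iter (x : List Bool) :
    P.F^[gap P r x] (P.G^[bk P r x] x) = P.F^[fw P r x + 1] x := by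
  rw [P.iterG_eq_zpow, P.iter_eq_zpow, P.iter_eq_zpow, ← Equiv.Perm.mul_apply, ← zpow_add]
  congr 2
  unfold gap
  push_cast
  ring

theorem gap_long {x : List Bool} (h : shrt P r x = false) : r < gap P r x := by
  by_contra hc
  have hb := (bk_spec P (r := r) x).1
  have hf := (fw_spec P (r := r) x).1
  have h1 : shrt P r (P.G^[bk P r x] x) = false := by rw [P.iterG_eq_zpow, shrt_zpow]; exact h
  have h2 : shrt P r (P.F^[fw P r x + 1] x) = false := by
    rw [P.iter_eq_zpow, shrt_zpow]; exact h
  have h3 := (anch_long P h1).1 hb (gap P r x) (by unfold gap; omega) (by omega)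
  have h4 := (anch_long P h2).1 hf (gap P r x) (by unfold gap; omega) (by omega)
  rw [gap_iter] at h3
  have h5 : P.G^[gap P r x] (P.F^[fw P r x + 1] x) = P.G^[bk P r x] x := by
    rw [← gap_iter, P.iterG_eq_zpow, P.iter_eq_zpow, ← Equiv.Perm.mul_apply, ← zpow_add]
    simp
  rw [h5] at h4
  omega

/-- no anchors between the last one and the next one -/
theorem between {x : List Bool} {j : ℕ} (h0 : 0 < j) (hj : j < gap P r x) :
    anch P r (P.F^[j] (P.G^[bk P r x] x)) = false := by
  rcases Nat.lt_or_ge (bk P r x) j with h | h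
  · have h1 : P.F^[j] (P.G^[bk P r x] x) = P.F^[(j - bk P r x - 1) + 1] x := by
      rw [P.iterG_eq_zpow, P.iter_eq_zpow, P.iter_eq_zpow, ← Equiv.Perm.mul_apply, ← zpow_add]
      congr 2
      omega
    rw [h1]
    exact (fw_spec P (r := r) x).2 _ (by unfold gap at hj; omega)
  · have h1 : P.F^[j] (P.G^[bk P r x] x) = P.G^[bk P r x - j] x := by
      rw [P.iterG_eq_zpow, P.iter_eq_zpow, P.iterG_eq_zpow, ← Equiv.Perm.mul_apply, ← zpow_add]
      congr 2
      omega
    rw [h1]
    exact (bk_spec P (r := r) x).2 _ (by omega)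

theorem gap_short {x : List Bool} (h : shrt P r x = true) : gap P r x = P.N x := by
  have hb := (bk_spec P (r := r) x).1
  have hf := (fw_spec P (r := r) x).1
  set y := P.G^[bk P r x] x with hy
  have h1 : shrt P r y = true := by rw [hy, P.iterG_eq_zpow, shrt_zpow]; exact h
  have h2 : P.F^[gap P r x] y = y := by
    have h3 : anch P r (P.F^[gap P r x] y) = true := by rw [hy, gap_iter]; exact hf
    have h4 : shrt P r (P.F^[gap P r x] y) = true := by rw [P.iter_eq_zpow, shrt_zpow]; exact h1
    apply valB_inj (P.length_iter _ _)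
    apply le_antisymm _ (anch_min P h1 hb _)
    -- return to `y`
    obtain ⟨n, hn, hn'⟩ := P.exists_period y
    have h5 : P.F^[n * gap P r x - gap P r x] (P.F^[gap P r x] y) = y := by
      rw [← Function.iterate_add_apply, Nat.sub_add_cancel (Nat.le_mul_of_pos_left _ hn)]
      exact Function.IsPeriodicPt.mul_const (f := P.F) (m := n) hn' _
    have h6 := anch_min P h4 h3 (n * gap P r x - gap P r x)
    rwa [h5] at h6
  have hN : P.N y = P.N x := by
    unfold PPerm.N
    have h3 : x = P.F^[bk P r x] y := by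
      rw [hy, P.iterG_eq_zpow, P.iter_eq_zpow, ← Equiv.Perm.mul_apply, ← zpow_add]
      simp
    conv_rhs => rw [h3]
    exact (Function.minimalPeriod_apply_iterate (P.isPeriodicPt y) _).symm
  rw [← hN]
  have h3 : Function.IsPeriodicPt P.F (gap P r x) y := h2
  rcases Nat.lt_or_ge (P.N y) (gap P r x) with h4 | h4
  · have h5 := between P (r := r) (P.N_pos y) h4
    rw [← hy, P.iter_N, hb] at h5
    exact absurd h5 (by simp)
  · exact le_antisymm h4 (h3.minimalPeriod_le (by unfold gap; omega))

end Pool.Agent.V7H67.LL
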