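import Pool.Agent.V7H67.LL.Code
import Pool.Agent.H550R2.Iso.Iter

/-!
# Running a finite automaton around the cycle of a point is possible in polynomial space
-/

namespace Pool.Agent.V7H67.LL

open Pool.Agent.NPC Pool.Agent.NPC.PIso

/-! ### Tables -/

section Table

variable {S : Type} [Fintype S]

/-- the number of an element of a finite type -/
noncomputable def cS (s : S) : ℕ := (Fintype.equivFin S s).val

/-- the element with a given number -/
noncomputable def dS (s0 : S) (i : ℕ) : S :=
  if h : i < Fintype.card S then (Fintype.equivFin S).symm ⟨i, h⟩ else s0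

theorem cS_lt (s : S) : cS s < Fintype.card S := (Fintype.equivFin S s).2

theorem dS_cS (s0 s : S) : dS s0 (cS s) = s := by
  unfold dS
  rw [dif_pos (cS_lt s)]
  simp [cS]

/-- the table of a function -/
noncomputable def tbl (s0 : S) (A : S → S) (i : ℕ) : ℕ :=
  ((List.range (Fintype.card S)).map fun i => cS (A (dS s0 i))).getD i 0

theorem tbl_cS (s0 : S) (A : S → S) (s : S) : tbl s0 A (cS s) = cS (A s) := by
  unfold tbl
  have h := cS_lt s
  simp [List.getD_eq_getElem?_getD, h, dS_cS]

theorem poly_tbl (s0 : S) (A : S → S) : NPC.Poly (tbl s0 A) :=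
  NPC.Poly.getD (NPC.Poly.const _) NPC.Poly.id (NPC.Poly.const 0)

/-- the table of a test -/
noncomputable def tbq (s0 : S) (Q : S → Bool) (i : ℕ) : Bool :=
  ((List.range (Fintype.card S)).map fun i => Q (dS s0 i)).getD i false

theorem tbq_cS (s0 : S) (Q : S → Bool) (s : S) : tbq s0 Q (cS s) = Q s := by
  unfold tbq
  have h := cS_lt s
  simp [List.getD_eq_getElem?_getD, h, dS_cS]

theorem poly_tbq (s0 : S) (Q : S → Bool) : NPC.Poly (tbq s0 Q) :=
  NPC.Poly.getD (NPC.Poly.const _) NPC.Poly.id (NPC.Poly.const false)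

end Table

variable (P : PPerm)

/-- the least of the first `j + 1` iterates -/
noncomputable def mn (x : List Bool) : ℕ → List Bool
  | 0 => x
  | j + 1 => bif decide (valB (P.F^[j + 1] x) < valB (mn x j)) then P.F^[j + 1] x else mn x j

theorem mn_spec (x : List Bool) (j : ℕ) :
    (∃ i ≤ j, mn P x j = P.F^[i] x) ∧ ∀ i ≤ j, valB (mn P x j) ≤ valB (P.F^[i] x) := by
  induction j with
  | zero =>
    refine ⟨⟨0, le_rfl, rfl⟩, fun i hi => ?_⟩
    have : i = 0 := by omega
    subst this
    exact le_rfl
  | succ j ih =>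
    obtain ⟨⟨i0, h0, h1⟩, h2⟩ := ih
    simp only [mn]
    by_cases h : valB (P.F^[j + 1] x) < valB (mn P x j)
    · simp only [h, decide_true, cond_true]
      refine ⟨⟨j + 1, le_rfl, rfl⟩, fun i hi => ?_⟩
      rcases Nat.lt_or_ge i (j + 1) with h3 | h3
      · exact h.le.trans (h2 i (by omega))
      · have : i = j + 1 := by omega
        rw [this]
    · simp only [h, decide_false, cond_false]
      refine ⟨⟨i0, by omega, h1⟩, fun i hi => ?_⟩
      rcases Nat.lt_or_ge i (j + 1) with h3 | h3
      · exact h2 i (by omega)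
      · have : i = j + 1 := by omega
        rw [this]
        omega

theorem mn_length (x : List Bool) (j : ℕ) : (mn P x j).length = x.length := by
  obtain ⟨⟨i, _, h⟩, _⟩ := mn_spec P x j
  rw [h, P.length_iter]

/-- the least point of the cycle -/
noncomputable def base (x : List Bool) : List Bool := mn P x (P.N x - 1)

theorem base_le (x : List Bool) (n : ℕ) : valB (base P x) ≤ valB (P.F^[n] x) := by
  have h1 := P.N_pos x
  have h2 : P.F^[n] x = P.F^[n % P.N x] x :=
    (Function.IsPeriodicPt.iterate_mod_apply (P.iter_N x) n).symm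
  rw [h2]
  exact (mn_spec P x _).2 _ (by have := Nat.mod_lt n h1; omega)

theorem base_orbit (x : List Bool) : ∃ i < P.N x, base P x = P.F^[i] x := by
  have h1 := P.N_pos x
  obtain ⟨⟨i, h2, h3⟩, _⟩ := mn_spec P x (P.N x - 1)
  exact ⟨i, by omega, h3⟩

theorem base_length (x : List Bool) : (base P x).length = x.length := mn_length P x _

theorem N_iter (x : List Bool) (i : ℕ) : P.N (P.F^[i] x) = P.N x := by
  unfold PPerm.N
  exact Function.minimalPeriod_apply_iterate (P.isPeriodicPt x) i

theorem N_base (x : List Bool) : P.N (base P x) = P.N x := by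
  obtain ⟨i, _, h⟩ := base_orbit P x
  rw [h, N_iter]

theorem exists_idx (x : List Bool) : ∃ i, i < P.N x ∧ P.F^[i] (base P x) = x := by
  obtain ⟨i, h1, h2⟩ := base_orbit P x
  rw [h2]
  rcases Nat.eq_zero_or_pos i with rfl | h0
  · exact ⟨0, P.N_pos x, rfl⟩
  · refine ⟨P.N x - i, by omega, ?_⟩
    rw [← Function.iterate_add_apply, Nat.sub_add_cancel h1.le, P.iter_N]

open Classical in
/-- the position of a point on its cycle -/
noncomputable def idx (x : List Bool) : ℕ := Nat.find (exists_idx P x)

theorem idx_lt (x : List Bool) : idx P x < P.N x := (Nat.find_spec (exists_idx P x)).1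

theorem iter_idx (x : List Bool) : P.F^[idx P x] (base P x) = x :=
  (Nat.find_spec (exists_idx P x)).2

theorem iter_inj_base {x : List Bool} {i j : ℕ} (hi : i < P.N x) (hj : j < P.N x)
    (h : P.F^[i] (base P x) = P.F^[j] (base P x)) : i = j := by
  rw [← N_base] at hi hj
  exact Function.iterate_injOn_Iio_minimalPeriod hi hj h

theorem idx_unique {x : List Bool} {i : ℕ} (hi : i < P.N x) (h : P.F^[i] (base P x) = x) :
    idx P x = i :=
  iter_inj_base P (idx_lt P x) hi ((iter_idx P x).trans h.symm)

theorem base_F (x : List Bool) : base P (P.F x) = base P x := by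
  apply valB_inj
  · rw [base_length, base_length, P.length_F]
  · apply le_antisymm
    · obtain ⟨i, hi, h⟩ := base_orbit P x
      rw [h]
      have h1 : P.F^[i] x = P.F^[i + (P.N x - 1)] (P.F x) := by
        rw [← Function.iterate_succ_apply]
        have h2 := P.N_pos x
        rw [show (i + (P.N x - 1)).succ = i + P.N x by omega, Function.iterate_add_apply, P.iter_N]
      rw [h1]
      exact base_le P _ _
    · obtain ⟨i, hi, h⟩ := base_orbit P (P.F x)
      rw [h, ← Function.iterate_succ_apply]
      exact base_le P _ _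

theorem N_F (x : List Bool) : P.N (P.F x) = P.N x := N_iter P x 1

theorem idx_F (x : List Bool) : idx P (P.F x) = if idx P x + 1 < P.N x then idx P x + 1 else 0 := by
  have h1 := idx_lt P x
  have h2 := iter_idx P x
  split_ifs with h
  · apply idx_unique
    · rw [N_F]; exact h
    · rw [base_F, Function.iterate_succ_apply', h2]
  · apply idx_unique
    · rw [N_F]; omega
    · rw [base_F]
      have h3 : idx P x + 1 = P.N x := by omega
      have h4 : P.F x = P.F^[idx P x + 1] (base P x) := by
        rw [Function.iterate_succ_apply', h2]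
      rw [h4, h3, ← N_base, P.iter_N]
      rfl

section Run

variable {S : Type} [Fintype S] (s0 : S) (A B : S → S)

/-- the final state of the automaton: it starts at the least point of the cycle and reads the
cycle, with a special action `B` at the point `x` -/
noncomputable def fin (x : List Bool) : S := A^[P.N x - idx P x] (B (A^[idx P x] s0))

/-- the state at position `j` -/
noncomputable def sAt (i j : ℕ) : S :=
  if j ≤ i then A^[j] s0 else A^[j - i] (B (A^[i] s0))

theorem sAt_succ (i j : ℕ) : sAt s0 A B i (j + 1) =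
    A (if j = i then B (sAt s0 A B i j) else sAt s0 A B i j) := by
  unfold sAt
  rcases Nat.lt_trichotomy j i with h | h | h
  · rw [if_pos (by omega), if_neg (by omega), if_pos h.le, Function.iterate_succ_apply']
  · subst h
    rw [if_neg (by omega), if_pos rfl, if_pos le_rfl, Nat.add_sub_cancel_left]
    rfl
  · rw [if_neg (by omega), if_neg (by omega), if_neg (by omega),
      show j + 1 - i = (j - i) + 1 by omega, Function.iterate_succ_apply']

theorem sAt_N (x : List Bool) : sAt s0 A B (idx P x) (P.N x) = fin P s0 A B x := by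
  unfold sAt fin
  rw [if_neg (by have := idx_lt P x; omega)]

/-- the states of the process -/
abbrev Stt := List Bool × List Bool × List Bool × ℕ × ℕ

/-- one step of the process -/
noncomputable def G (z : Stt) : Stt :=
  bif decide (z.2.2.2.2 = 0) then
    (bif decide (z.2.1 = z.1) then (z.1, z.2.2.1, z.2.2.1, z.2.2.2.1, 1)
    else (z.1, P.F z.2.1, (bif decide (valB z.2.1 < valB z.2.2.1) then z.2.1 else z.2.2.1),
      z.2.2.2.1, 0))
  else (z.1, P.F z.2.1, z.2.2.1,
    tbl s0 A (bif decide (z.2.1 = z.1) then tbl s0 B z.2.2.2.1 else z.2.2.2.1),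
    bif decide (P.F z.2.1 = z.2.2.1) then 2 else 1)

theorem poly_G' : NPC.Poly (G P s0 A B) := by
  have h1 : NPC.Poly (fun z : Stt => z.1) := NPC.Poly.fst NPC.Poly.id
  have h2 : NPC.Poly (fun z : Stt => z.2.1) := NPC.Poly.fst (NPC.Poly.snd NPC.Poly.id)
  have h3 : NPC.Poly (fun z : Stt => z.2.2.1) :=
    NPC.Poly.fst (NPC.Poly.snd (NPC.Poly.snd NPC.Poly.id))
  have h4 : NPC.Poly (fun z : Stt => z.2.2.2.1) :=
    NPC.Poly.fst (NPC.Poly.snd (NPC.Poly.snd (NPC.Poly.snd NPC.Poly.id)))
  have h5 : NPC.Poly (fun z : Stt => z.2.2.2.2) :=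
    NPC.Poly.snd (NPC.Poly.snd (NPC.Poly.snd (NPC.Poly.snd NPC.Poly.id)))
  refine NPC.Poly.cond (NPC.Poly.decide_eq h5 (NPC.Poly.const 0)) ?_ ?_
  · refine NPC.Poly.cond (NPC.Poly.decide_eq h2 h1)
      (h1.pair (h3.pair (h3.pair (h4.pair (NPC.Poly.const 1))))) ?_
    exact h1.pair ((P.poly_F.comp h2).pair ((NPC.Poly.cond (NPC.Poly.decide_lt
      (NPC.Poly.valBits h2) (NPC.Poly.valBits h3)) h2 h3).pair (h4.pair (NPC.Poly.const 0))))
  · exact h1.pair ((P.poly_F.comp h2).pair (h3.pair (((poly_tbl s0 A).comp
      (NPC.Poly.cond (NPC.Poly.decide_eq h2 h1) ((poly_tbl s0 B).comp h4) h4)).pair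
      (NPC.Poly.cond (NPC.Poly.decide_eq (P.poly_F.comp h2) h3) (NPC.Poly.const 2)
        (NPC.Poly.const 1)))))

/-- the initial state of the process -/
noncomputable def ini (x : List Bool) : Stt := (x, P.F x, x, cS s0, 0)

theorem run0 (x : List Bool) : ∀ j, j < P.N x →
    (G P s0 A B)^[j] (ini P s0 x) = (x, P.F^[j + 1] x, mn P x j, cS s0, 0) := by
  intro j
  induction j with
  | zero => intro _; rfl
  | succ j ih =>
    intro hj
    rw [Function.iterate_succ_apply', ih (by omega)]
    have h1 : P.F^[j + 1] x ≠ x := P.iter_ne (by omega) hj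
    unfold G
    simp only [decide_true, cond_true, h1, decide_false, cond_false, mn]
    rw [← Function.iterate_succ_apply' P.F (j + 1) x]

theorem run1 (x : List Bool) :
    (G P s0 A B)^[P.N x] (ini P s0 x) = (x, base P x, base P x, cS s0, 1) := by
  have h0 := P.N_pos x
  have h1 := run0 P s0 A B x (P.N x - 1) (by omega)
  rw [Nat.sub_add_cancel h0, P.iter_N] at h1
  conv_lhs => rw [show P.N x = (P.N x - 1) + 1 by omega]
  rw [Function.iterate_succ_apply', h1]
  simp [G, base]

theorem run2 (x : List Bool) : ∀ j, j ≤ P.N x →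
    (G P s0 A B)^[j] (x, base P x, base P x, cS s0, 1) =
      (x, P.F^[j] (base P x), base P x, cS (sAt s0 A B (idx P x) j),
        if j = P.N x then 2 else 1) := by
  intro j
  induction j with
  | zero =>
    intro _
    have h0 := P.N_pos x
    rw [if_neg (by omega)]
    simp [sAt]
  | succ j ih =>
    intro hj
    rw [Function.iterate_succ_apply', ih (by omega), if_neg (by omega), sAt_succ]
    have h1 : (P.F^[j] (base P x) = x) ↔ j = idx P x := by
      constructor
      · intro h; exact (idx_unique P (by omega) h).symm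
      · rintro rfl; exact iter_idx P x
    have h2 : (P.F (P.F^[j] (base P x)) = base P x) ↔ j + 1 = P.N x := by
      rw [← Function.iterate_succ_apply' P.F j]
      constructor
      · intro h
        by_contra hne
        refine P.iter_ne (x := base P x) (n := j + 1) (by omega) ?_ h
        rw [N_base]; omega
      · intro h
        change P.F^[j + 1] (base P x) = base P x
        rw [h, ← N_base, P.iter_N]
    unfold G
    simp only [one_ne_zero, decide_false, cond_false, Function.iterate_succ_apply' P.F j]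
    congr 4
    · by_cases h : j = idx P x
      · rw [if_pos h, decide_eq_true (h1.2 h), cond_true, tbl_cS, tbl_cS]
      · rw [if_neg h, decide_eq_false (fun h' => h (h1.1 h')), cond_false, tbl_cS]
    · by_cases h : j + 1 = P.N x
      · rw [if_pos h, decide_eq_true (h2.2 h), cond_true]
      · rw [if_neg h, decide_eq_false (fun h' => h (h2.1 h')), cond_false]

theorem sz_stt_le (x y z : List Bool) (s : S) (p : ℕ) (hy : y.length = x.length)
    (hz : z.length = x.length) (hp : p ≤ 2) :
    sz ((x, y, z, cS s, p) : Stt) ≤ 12 * x.length + 4 * Fintype.card S + 40 := by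
  have h1 := sz_listBool_le x
  have h2 := sz_listBool_le y
  have h3 := sz_listBool_le z
  have h4 := sz_nat_le (cS s)
  have h5 := sz_nat_le p
  have h6 : (cS s).size ≤ cS s := NPC.Poly.size_le_self _
  have h7 : p.size ≤ p := NPC.Poly.size_le_self _
  have h8 := cS_lt s
  simp only [sz_pair]
  omega

/-- Running the automaton around the cycle is possible in polynomial space. -/
theorem inPSPACE_fin (Q : S → Bool) :
    InPSPACE {x | x ∈ P.X ∧ Q (fin P s0 A B x) = true} := by
  refine inPSPACE_iter (G P s0 A B) (fun z => decide (z.2.2.2.2 = 2))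
    (acc := fun z => P.b z.1 && tbq s0 Q z.2.2.2.1) (init := ini P s0) (poly_G' P s0 A B)
    (NPC.Poly.decide_eq (NPC.Poly.snd (NPC.Poly.snd (NPC.Poly.snd (NPC.Poly.snd NPC.Poly.id))))
      (NPC.Poly.const 2))
    (NPC.Poly.and (P.poly_b.comp (NPC.Poly.fst NPC.Poly.id)) ((poly_tbq s0 Q).comp
      (NPC.Poly.fst (NPC.Poly.snd (NPC.Poly.snd (NPC.Poly.snd NPC.Poly.id))))))
    (NPC.Poly.id.pair (P.poly_F.pair (NPC.Poly.id.pair ((NPC.Poly.const _).pair
      (NPC.Poly.const 0)))))
    (Polynomial.C 12 * Polynomial.X + Polynomial.C (4 * Fintype.card S + 40)) fun x => ?_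
  have key : ∀ i ≤ P.N x + P.N x, (i < P.N x ∧ (G P s0 A B)^[i] (ini P s0 x) =
      (x, P.F^[i + 1] x, mn P x i, cS s0, 0)) ∨ ∃ j, i = P.N x + j ∧ j ≤ P.N x ∧
      (G P s0 A B)^[i] (ini P s0 x) = (x, P.F^[j] (base P x), base P x,
        cS (sAt s0 A B (idx P x) j), if j = P.N x then 2 else 1) := by
    intro i hi
    rcases Nat.lt_or_ge i (P.N x) with h | h
    · exact Or.inl ⟨h, run0 P s0 A B x i h⟩
    · refine Or.inr ⟨i - P.N x, by omega, by omega, ?_⟩
      rw [← run2 P s0 A B x _ (by omega), ← run1, ← Function.iterate_add_apply]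
      congr 2
      omega
  have h0 := P.N_pos x
  refine ⟨P.N x + P.N x, ?_, ?_, ?_, ?_⟩
  · rcases key _ le_rfl with ⟨h, _⟩ | ⟨j, h1, h2, h3⟩
    · omega
    · rw [h3, if_pos (by omega)]; rfl
  · intro i hi
    rcases key i hi.le with ⟨h, h3⟩ | ⟨j, h1, h2, h3⟩
    · rw [h3]; rfl
    · rw [h3, if_neg (by omega)]; rfl
  · intro i hi
    simp only [Polynomial.eval_add, Polynomial.eval_mul, Polynomial.eval_C, Polynomial.eval_X]
    rcases key i hi with ⟨h, h3⟩ | ⟨j, h1, h2, h3⟩
    · rw [h3]
      have := sz_stt_le x (P.F^[i + 1] x) (mn P x i) s0 0 (P.length_iter _ _) (mn_length P x i)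
        (by omega)
      omega
    · rw [h3]
      have := sz_stt_le x (P.F^[j] (base P x)) (base P x) (sAt s0 A B (idx P x) j)
        (if j = P.N x then 2 else 1) (by rw [P.length_iter, base_length]) (base_length P x)
        (by split_ifs <;> omega)
      omega
  · rcases key _ le_rfl with ⟨h, _⟩ | ⟨j, h1, h2, h3⟩
    · omega
    · rw [h3]
      have h4 : j = P.N x := by omega
      subst h4
      simp only [tbq_cS, sAt_N, Set.mem_ofPred_eq, Bool.and_eq_true, ← P.b_iff]

end Run

end Pool.Agent.V7H67.LL
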