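import Pool.Agent.V7H67.LL.Perm

/-!
# Colours from the first differing bit
-/

namespace Pool.Agent.V7H67.LL

open Pool.Agent.NPC Pool.Agent.NPC.PIso

/-- the first differing position, with the two bits -/
def fdp (x y : List Bool) : Option ((Bool × Bool) × ℕ) :=
  ((x.zip y).zipIdx.filter fun p => (p.1.1 ^^ p.1.2)).head?

/-- the code of the first differing position and of the bit there -/
def code (x y : List Bool) : ℕ :=
  match fdp x y with
  | none => 0
  | some p => 2 * p.2 + p.1.1.toNat

theorem fdp_spec {x y : List Bool} {p : (Bool × Bool) × ℕ} (h : fdp x y = some p) :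
    x[p.2]? = some p.1.1 ∧ y[p.2]? = some p.1.2 ∧ p.1.1 ≠ p.1.2 ∧ p.2 < x.length := by
  have h1 := List.mem_of_mem_head? h
  rw [List.mem_filter] at h1
  obtain ⟨h2, h3⟩ := h1
  have h4 := List.mem_zipIdx' h2
  obtain ⟨⟨a, b⟩, i⟩ := p
  simp only at h4 h3 ⊢
  obtain ⟨h5, h6⟩ := h4
  have h7 : i < x.length := by
    rw [List.length_zip] at h5; omega
  have h8 : i < y.length := by
    rw [List.length_zip] at h5; omega
  rw [List.getElem_zip, Prod.mk.injEq] at h6
  refine ⟨?_, ?_, ?_, h7⟩
  · rw [List.getElem?_eq_getElem h7, h6.1]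
  · rw [List.getElem?_eq_getElem h8, h6.2]
  · rintro rfl
    simp at h3

theorem fdp_none {x y : List Bool} (hl : x.length = y.length) (h : fdp x y = none) : x = y := by
  have h1 : ((x.zip y).zipIdx.filter fun p => (p.1.1 ^^ p.1.2)) = [] := List.head?_eq_none_iff.1 h
  rw [List.filter_eq_nil_iff] at h1
  apply List.ext_getElem hl
  intro i hi hi'
  have h2 : ((x[i], y[i]), i) ∈ (x.zip y).zipIdx := by
    rw [List.mem_zipIdx_iff_getElem?]
    rw [List.getElem?_eq_getElem (by rw [List.length_zip]; omega), List.getElem_zip]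
  have h3 := h1 _ h2
  simp only at h3
  cases hx : x[i] <;> cases hy : y[i] <;> simp [hx, hy] at h3 ⊢

theorem code_le (x y : List Bool) : code x y < 2 * x.length + 1 := by
  unfold code
  cases h : fdp x y with
  | none => simp
  | some p =>
    have h1 := (fdp_spec h).2.2.2
    simp only
    cases p.1.1 <;> simp <;> omega

theorem code_ne {x y z : List Bool} (h1 : x.length = y.length) (h2 : y.length = z.length)
    (hxy : x ≠ y) (hyz : y ≠ z) : code x y ≠ code y z := by
  unfold code
  cases h : fdp x y with
  | none => exact absurd (fdp_none h1 h) hxy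
  | some p =>
    cases h' : fdp y z with
    | none => exact absurd (fdp_none h2 h') hyz
    | some q =>
      obtain ⟨a1, a2, a3, _⟩ := fdp_spec h
      obtain ⟨b1, b2, b3, _⟩ := fdp_spec h'
      simp only
      intro he
      have he1 : p.2 = q.2 ∧ p.1.1 = q.1.1 := by
        cases hp : p.1.1 <;> cases hq : q.1.1 <;> simp [hp, hq] at he ⊢ <;> omega
      rw [← he1.1, a2] at b1
      apply a3
      rw [he1.2]
      exact (Option.some.inj b1).symm

variable (P : PPerm)

/-- the colour of a point, from the comparison with its `r` successors -/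
noncomputable def chi : ℕ → List Bool → ℕ
  | 0, _ => 0
  | r + 1, x => chi r x * (2 * x.length + 1) + code x (P.F^[r + 1] x)

theorem chi_lt (r : ℕ) (x : List Bool) : chi P r x < (2 * x.length + 1) ^ r := by
  induction r with
  | zero => simp [chi]
  | succ r ih =>
    have h1 := code_le x (P.F^[r + 1] x)
    simp only [chi]
    rw [pow_succ]
    nlinarith

theorem chi_inj {x y : List Bool} (hl : x.length = y.length) : ∀ {r : ℕ},
    chi P r x = chi P r y → ∀ j, 0 < j → j ≤ r → code x (P.F^[j] x) = code y (P.F^[j] y) := by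
  intro r
  induction r with
  | zero => intro _ j h1 h2; omega
  | succ r ih =>
    intro h j h1 h2
    simp only [chi] at h
    rw [hl] at h
    have c1 := code_le x (P.F^[r + 1] x)
    have c2 := code_le y (P.F^[r + 1] y)
    rw [hl] at c1
    have e1 : code x (P.F^[r + 1] x) = code y (P.F^[r + 1] y) := by
      have := congrArg (· % (2 * y.length + 1)) h
      simp only [Nat.mul_add_mod_self_right] at this
      rwa [Nat.mod_eq_of_lt c1, Nat.mod_eq_of_lt c2] at this
    rcases Nat.lt_or_ge j (r + 1) with hj | hj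
    · refine ih ?_ j h1 (by omega)
      rw [e1] at h
      exact Nat.eq_of_mul_eq_mul_right (Nat.succ_pos (2 * y.length)) (Nat.add_right_cancel h)
    · have : j = r + 1 := by omega
      subst this
      exact e1

theorem chi_ne {r : ℕ} {x : List Bool} {j : ℕ} (h0 : 0 < j) (hj : j ≤ r) (h : P.F^[j] x ≠ x) :
    chi P r x ≠ chi P r (P.F^[j] x) := by
  intro he
  have h1 := chi_inj P (P.length_iter j x).symm he j h0 hj
  refine code_ne (P.length_iter j x).symm (P.length_iter j _).symm (Ne.symm h) ?_ h1
  intro h2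
  exact h ((P.F_inj.iterate j) h2.symm)

section PolyLemmas

variable {α : Type} [TEnc α]

theorem poly_code {x y : α → List Bool} (hx : NPC.Poly x) (hy : NPC.Poly y) :
    NPC.Poly (fun a => code (x a) (y a)) := by
  have h1 : NPC.Poly (fun a => (((x a).zip (y a)).zipIdx.filter fun p => (p.1.1 ^^ p.1.2)).head?) :=
    NPC.Poly.head? (NPC.Poly.filter (p := fun _ p => (p.1.1 ^^ p.1.2))
      (NPC.Poly.zipIdx (NPC.Poly.zip hx hy))
      (NPC.Poly.xor (NPC.Poly.fst (NPC.Poly.fst (NPC.Poly.snd NPC.Poly.id)))
        (NPC.Poly.snd (NPC.Poly.fst (NPC.Poly.snd NPC.Poly.id)))))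
  refine (NPC.Poly.optCases (h := fun _ p => 2 * p.2 + (bif p.1.1 then 1 else 0)) h1
    (NPC.Poly.const 0) (NPC.Poly.add (NPC.Poly.mul (NPC.Poly.const 2)
      (NPC.Poly.snd (NPC.Poly.snd NPC.Poly.id)))
      (NPC.Poly.cond (NPC.Poly.fst (NPC.Poly.fst (NPC.Poly.snd NPC.Poly.id))) (NPC.Poly.const 1)
        (NPC.Poly.const 0)))).congr fun a => ?_
  unfold code fdp
  cases ((((x a).zip (y a)).zipIdx.filter fun p => (p.1.1 ^^ p.1.2)).head?) with
  | none => rfl
  | some p => simp only; cases p.1.1 <;> rfl

/-- iterating a length-preserving function -/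
theorem poly_iter {F : List Bool → List Bool} (hF : NPC.Poly F) (hl : ∀ x, (F x).length = x.length)
    {x : α → List Bool} {i B : α → ℕ} (hx : NPC.Poly x) (hi : NPC.Poly i) (hB : UPoly B) :
    NPC.Poly (fun a => F^[min (i a) (B a)] (x a)) := by
  have h1 : UPoly (fun a => min (i a) (B a)) :=
    UPoly.of_le (NPC.Poly.min hi hB.toPoly) hB fun a => min_le_right _ _
  obtain ⟨q, hq⟩ := hx.sz_le
  refine (NPC.Poly.iterLen (F := fun _ y => F y) (l := fun a => List.replicate (min (i a) (B a)) ())
    h1 hx (hF.comp (NPC.Poly.snd NPC.Poly.id)) (4 * q + 1) ?_).congr fun a => ?_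
  · intro a k _
    have h2 : ∀ k, (F^[k] (x a)).length = (x a).length := by
      intro k
      induction k with
      | zero => rfl
      | succ k ih => rw [Function.iterate_succ_apply', hl, ih]
    have h3 := sz_listBool_le (F^[k] (x a))
    have h4 := length_lt_sz (x a)
    have h5 := hq a
    rw [h2] at h3
    simp only [Polynomial.eval_add, Polynomial.eval_mul, Polynomial.eval_one,
      Polynomial.eval_ofNat]
    change sz (F^[k] (x a)) ≤ _
    omega
  · simp

theorem poly_chi (r : ℕ) : NPC.Poly (chi P r) := by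
  induction r with
  | zero => exact (NPC.Poly.const 0).congr fun a => rfl
  | succ r ih =>
    refine (NPC.Poly.add (NPC.Poly.mul ih (NPC.Poly.add (NPC.Poly.mul (NPC.Poly.const 2)
      (NPC.Poly.length NPC.Poly.id)) (NPC.Poly.const 1))) (poly_code NPC.Poly.id
      (poly_iter P.poly_F P.length_F NPC.Poly.id (NPC.Poly.const (r + 1))
        (UPoly.const (r + 1))))).congr fun a => ?_
    rw [min_self]
    rfl

end PolyLemmas

/-! ### Bounded search -/

/-- the least number below `N` with a property -/
def lst (N : ℕ) (p : ℕ → Bool) : ℕ := (((List.range N).filter p).head?).getD 0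

theorem lst_spec {N : ℕ} {p : ℕ → Bool} (h : ∃ i < N, p i = true) :
    p (lst N p) = true ∧ lst N p < N ∧ ∀ i < lst N p, p i = false := by
  induction N with
  | zero => obtain ⟨i, hi, _⟩ := h; omega
  | succ N ih =>
    unfold lst at ih ⊢
    rw [List.range_succ, List.filter_append]
    by_cases h1 : ∃ i < N, p i = true
    · obtain ⟨h2, h3, h4⟩ := ih h1
      have h5 : ((List.range N).filter p) ≠ [] := by
        obtain ⟨i, hi, hpi⟩ := h1
        intro h0
        rw [List.filter_eq_nil_iff] at h0
        exact h0 i (List.mem_range.2 hi) hpi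
      obtain ⟨a, l, hal⟩ := List.exists_cons_of_ne_nil h5
      rw [hal] at h2 h3 h4 ⊢
      simp only [List.cons_append, List.head?_cons, Option.getD_some] at h2 h3 h4 ⊢
      exact ⟨h2, by omega, h4⟩
    · have h5 : ((List.range N).filter p) = [] := by
        rw [List.filter_eq_nil_iff]
        intro i hi hpi
        exact h1 ⟨i, List.mem_range.1 hi, hpi⟩
      obtain ⟨i, hi, hpi⟩ := h
      have h6 : i = N := by
        by_contra hne
        exact h1 ⟨i, by omega, hpi⟩
      subst h6
      rw [h5]
      simp only [List.nil_append, List.filter_cons, hpi, if_true, List.filter_nil, List.head?_cons,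
        Option.getD_some, true_and]
      refine ⟨by omega, fun j hj => ?_⟩
      by_contra hc
      exact h1 ⟨j, hj, by simpa using hc⟩

theorem lst_unique {N : ℕ} {p : ℕ → Bool} {j : ℕ} (hj : j < N) (hp : p j = true)
    (h : ∀ i < j, p i = false) : lst N p = j := by
  obtain ⟨h1, h2, h3⟩ := lst_spec ⟨j, hj, hp⟩
  rcases Nat.lt_trichotomy (lst N p) j with h4 | h4 | h4
  · rw [h _ h4] at h1; exact absurd h1 (by simp)
  · exact h4
  · rw [h3 _ h4] at hp; exact absurd hp (by simp)

theorem poly_lst {α : Type} [TEnc α] {N : α → ℕ} {p : α → ℕ → Bool} (hN : UPoly N)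
    (hp : NPC.Poly (fun q : α × ℕ => p q.1 q.2)) : NPC.Poly (fun a => lst (N a) (p a)) :=
  (NPC.Poly.optCases (h := fun _ b => b) (NPC.Poly.head? (NPC.Poly.filter (p := p) hN.range hp))
    (NPC.Poly.const 0) (NPC.Poly.snd NPC.Poly.id)).congr fun a => by
      unfold lst
      cases ((List.range (N a)).filter (p a)).head? <;> rfl

end Pool.Agent.V7H67.LL
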