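import Pool.Agent.V7H67.LL.Easy
import Pool.Agent.V7H67.LL.Up
import Pool.Agent.V7H67.LL.Hard2
import Pool.Agent.V7H67.LL.Conv

/-!
# Locally checkable labelling problems on polynomial-time permutations
-/

namespace Pool.Agent.V7H67.LL

open Pool.Agent.NPC Pool.Agent.NPC.PIso

/-- A locally checkable labelling problem is given by a set `W` of allowed windows, words of
length `t + 2` over the labels `Fin k`. The labelling `c` solves the problem on the permutation
`P` if for every point `x` of the domain the labels of `x`, `f x`, ..., `f^[t + 1] x` form an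
allowed window. -/
def IsSolution {k t : ℕ} (W : Set (Fin (t + 2) → Fin k)) (P : PPerm) (c : List Bool → Fin k) :
    Prop :=
  ∀ x ∈ P.X, (fun i : Fin (t + 2) => c (P.f^[i] x)) ∈ W

/-- `a` is a periodic sequence with period `n` all of whose windows are allowed. -/
def Per {k t : ℕ} (W : Set (Fin (t + 2) → Fin k)) (n : ℕ) (a : ℕ → Fin k) : Prop :=
  (∀ i, a (i + n) = a i) ∧ ∀ i, (fun j : Fin (t + 2) => a (i + j)) ∈ W

/-- The problem is flexible: there are allowed periodic sequences with two consecutive periods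
`n ≥ 1` and `n + 1` that agree on the first `t + 1` places. -/
def Flex {k t : ℕ} (W : Set (Fin (t + 2) → Fin k)) : Prop :=
  ∃ (n : ℕ) (a b : ℕ → Fin k), 0 < n ∧ Per W n a ∧ Per W (n + 1) b ∧ ∀ j ≤ t, a j = b j

/-- The problem is solvable on some cycle. -/
def Cyc {k t : ℕ} (W : Set (Fin (t + 2) → Fin k)) : Prop :=
  ∃ (n : ℕ) (a : ℕ → Fin k), 0 < n ∧ Per W n a

variable {k t : ℕ} (W : Set (Fin (t + 2) → Fin k))

/-- the graph of overlapping words of length `t + 1` -/
def DB (u v : Fin (t + 1) → Fin k) : Prop :=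
  ∃ a ∈ W, (∀ i : Fin (t + 1), a i.castSucc = u i) ∧ ∀ i : Fin (t + 1), a i.succ = v i

theorem seqs {u : ℕ → Fin (t + 1) → Fin k} (h : ∀ i, DB W (u i) (u (i + 1))) :
    (∀ i (j : Fin (t + 1)), u i j = u (i + j) 0) ∧
      ∀ i, (fun j : Fin (t + 2) => u (i + j) 0) ∈ W := by
  have h1 : ∀ (j : ℕ) (hj : j < t + 1) (i : ℕ), u i ⟨j, hj⟩ = u (i + j) 0 := by
    intro j
    induction j with
    | zero => intro _ i; rfl
    | succ j ih =>
      intro hj i
      obtain ⟨a, _, ha1, ha2⟩ := h i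
      have h2 := ha1 ⟨j + 1, hj⟩
      have h3 := ha2 ⟨j, by omega⟩
      have h4 : (Fin.castSucc ⟨j + 1, hj⟩ : Fin (t + 2)) = Fin.succ ⟨j, by omega⟩ := rfl
      rw [← h2, h4, h3, ih (by omega) (i + 1)]
      congr 1
      ring_nf
  refine ⟨fun i j => h1 j.1 j.2 i, fun i => ?_⟩
  obtain ⟨a, haW, ha1, ha2⟩ := h i
  have h5 : (fun j : Fin (t + 2) => u (i + j) 0) = a := by
    funext j
    refine Fin.cases ?_ (fun j' => ?_) j
    · have := ha1 0
      rw [Fin.castSucc_zero] at this
      rw [this]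
      rfl
    · rw [ha2 j', h1 j'.1 j'.2 (i + 1)]
      congr 1
      simp only [Fin.val_succ]
      ring_nf
  rw [h5]
  exact haW

/-- the graph on numbers -/
def EE (u v : Fin (Fintype.card (Fin (t + 1) → Fin k))) : Prop :=
  DB W ((Fintype.equivFin _).symm u) ((Fintype.equivFin _).symm v)

theorem to_label {P : PPerm} {c : List Bool → Fin k} (h : IsSolution W P c) :
    IsLabelling (EE W) P (fun x => Fintype.equivFin (Fin (t + 1) → Fin k)
      (fun i => c (P.f^[i] x))) := by
  intro x hx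
  unfold EE
  rw [Equiv.symm_apply_apply, Equiv.symm_apply_apply]
  refine ⟨_, h x hx, fun i => rfl, fun i => ?_⟩
  simp only [Fin.val_succ, Function.iterate_succ_apply]

theorem of_label {P : PPerm} {c : List Bool → Fin (Fintype.card (Fin (t + 1) → Fin k))}
    (h : IsLabelling (EE W) P c) :
    IsSolution W P (fun x => (Fintype.equivFin (Fin (t + 1) → Fin k)).symm (c x) 0) := by
  intro x hx
  have hm : ∀ i, P.f^[i] x ∈ P.X := by
    intro i
    induction i with
    | zero => exact hx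
    | succ i ih => rw [Function.iterate_succ_apply']; exact P.mem_f _ ih
  have h1 := (seqs W (u := fun i => (Fintype.equivFin (Fin (t + 1) → Fin k)).symm
    (c (P.f^[i] x))) fun i => by
      have := h _ (hm i)
      rw [← Function.iterate_succ_apply' P.f] at this
      exact this).2 0
  simpa using h1

theorem walk_of_per {n : ℕ} {a : ℕ → Fin k} (h : Per W n a) :
    Walk (EE W) n (Fintype.equivFin (Fin (t + 1) → Fin k) (fun j => a j))
      (Fintype.equivFin (Fin (t + 1) → Fin k) (fun j => a j)) := by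
  refine ⟨fun i => Fintype.equivFin (Fin (t + 1) → Fin k) (fun j => a (i + j)), ?_, ?_, ?_⟩
  · simp
  · have h1 : (fun j : Fin (t + 1) => a (n + j)) = fun j : Fin (t + 1) => a j := by
      funext j
      rw [add_comm]
      exact h.1 _
    simp only [h1]
  · intro i _
    unfold EE
    rw [Equiv.symm_apply_apply, Equiv.symm_apply_apply]
    refine ⟨_, h.2 i, fun j => rfl, fun j => ?_⟩
    simp only [Fin.val_succ]
    congr 1
    ring

theorem per_of_walk {n : ℕ} (hn : 0 < n) {v : Fin (Fintype.card (Fin (t + 1) → Fin k))}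
    (h : Walk (EE W) n v v) : ∃ a, Per W n a ∧
      ∀ j (hj : j < t + 1), a j = (Fintype.equivFin (Fin (t + 1) → Fin k)).symm v ⟨j, hj⟩ := by
  obtain ⟨w, w0, wn, hw⟩ := h
  have h1 := seqs W (u := fun i => (Fintype.equivFin (Fin (t + 1) → Fin k)).symm (w (i % n)))
    fun i => closed_step hn (wn.trans w0.symm) hw i
  refine ⟨fun i => (Fintype.equivFin (Fin (t + 1) → Fin k)).symm (w (i % n)) 0,
    ⟨fun i => by simp only [Nat.add_mod_right], h1.2⟩, fun j hj => ?_⟩
  have h2 := h1.1 0 ⟨j, hj⟩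
  simp only [Nat.zero_mod, w0, Nat.zero_add] at h2
  exact h2.symm

theorem flex_iff : Flex W ↔ Flexible (EE W) := by
  constructor
  · rintro ⟨n, a, b, _, ha, hb, hab⟩
    refine ⟨_, n, walk_of_per W ha, ?_⟩
    have h1 : (fun j : Fin (t + 1) => a j) = fun j : Fin (t + 1) => b j := by
      funext j
      exact hab j (by omega)
    rw [h1]
    exact walk_of_per W hb
  · intro h
    obtain ⟨v, n, hn, h1, h2⟩ := h.exists_pos
    obtain ⟨a, ha, ha'⟩ := per_of_walk W hn h1
    obtain ⟨b, hb, hb'⟩ := per_of_walk W (Nat.succ_pos n) h2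
    exact ⟨n, a, b, hn, ha, hb, fun j hj => by
      rw [ha' j (by omega), hb' j (by omega)]⟩

theorem empty_of_not_cyc (h : ¬ Cyc W) {P : PPerm} {c : List Bool → Fin k}
    (hc : IsSolution W P c) : P.X = ∅ := by
  by_contra hne
  obtain ⟨x, hx⟩ := Set.nonempty_iff_ne_empty.2 hne
  have hf : ∀ i, P.f^[i] x = P.F^[i] x := by
    intro i
    induction i with
    | zero => rfl
    | succ i ih =>
      rw [Function.iterate_succ_apply', Function.iterate_succ_apply', ih,
        P.F_mem (P.mem_iter hx i)]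
  refine h ⟨P.N x, fun i => c (P.F^[i] x), P.N_pos x, fun i => ?_, fun i => ?_⟩
  · simp only [Function.iterate_add_apply, P.iter_N]
  · have h1 := hc (P.F^[i] x) (P.mem_iter hx i)
    have h2 : ∀ j, P.f^[j] (P.F^[i] x) = P.F^[i + j] x := by
      intro j
      rw [← hf i, ← hf (i + j), ← Function.iterate_add_apply, add_comm]
    simpa only [h2] using h1

theorem lcl_upper {P : PPerm} (h : ∃ c, IsSolution W P c) : ∃ c, IsSolution W P c ∧
    ∀ v, H623R2.PS.InPSPACE {x | x ∈ P.X ∧ c x = v} := by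
  obtain ⟨c, hc⟩ := h
  obtain ⟨c', hc', h1⟩ := upper (EE W) P ⟨_, to_label W hc⟩
  exact ⟨_, of_label W hc', fun v => ofPIso
    (h1 {u | (Fintype.equivFin (Fin (t + 1) → Fin k)).symm u 0 = v})⟩

theorem lcl_easy (hW : Flex W) {P : PPerm} (h : ∃ c, IsSolution W P c) : ∃ c, IsSolution W P c ∧
    ∀ v, InP {x | x ∈ P.X ∧ c x = v} := by
  obtain ⟨c, hc⟩ := h
  obtain ⟨c', hc', h1⟩ := easy ((flex_iff W).1 hW) P ⟨_, to_label W hc⟩
  exact ⟨_, of_label W hc', fun v =>
    h1 {u | (Fintype.equivFin (Fin (t + 1) → Fin k)).symm u 0 = v}⟩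

theorem lcl_hard (hW : ¬ Flex W) (hC : Cyc W) : ∃ P : PPerm, (∃ c, IsSolution W P c) ∧
    ∀ c, IsSolution W P c → ∀ L, H623R2.PS.InPSPACE L →
      ∃ s s' : List Bool → List Bool, PolyTime s ∧ PolyTime s' ∧ (∀ x, s x ∈ P.X) ∧
        (∀ x, s' x ∈ P.X) ∧ ∃ T : Set ((Fin (t + 1) → Fin k) × (Fin (t + 1) → Fin k)),
          ∀ x, x ∈ L ↔
            ((fun i : Fin (t + 1) => c (P.f^[i] (s x))), fun i : Fin (t + 1) => c (P.f^[i] (s' x))) ∈ T := by
  obtain ⟨L₀, hL₀, hred⟩ := exists_complete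
  obtain ⟨S⟩ := exists_sys hL₀
  obtain ⟨D, hD, hDw⟩ := exists_D (EE W)
  obtain ⟨n, a, hn, ha⟩ := hC
  have hwalk := walk_of_per W ha
  have hF : ¬ Flexible (EE W) := fun h => hW ((flex_iff W).2 h)
  refine ⟨perm S.toPerm hD, ?_, fun c hc L hL => ?_⟩
  · obtain ⟨c, hc⟩ := perm_labelable S.toPerm hD (hDw _ ⟨n, hn, hwalk⟩)
    exact ⟨_, of_label W hc⟩
  · obtain ⟨g, hg, hgL⟩ := hred L hL
    have hgP : NPC.Poly g := poly_iff.2 hg
    refine ⟨fun x => q1 S.toPerm D (g x), fun x => q2 S.toPerm D (g x),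
      poly_iff.1 ((poly_q1 S.toPerm D).comp hgP), poly_iff.1 ((poly_q2 S.toPerm D).comp hgP),
      fun x => q1_mem S.toPerm hD _, fun x => q2_mem S.toPerm hD _,
      {p | ∃ m, m % D = 1 % D ∧ Walk (EE W) m (Fintype.equivFin (Fin (t + 1) → Fin k) p.1)
        (Fintype.equivFin (Fin (t + 1) → Fin k) p.2)}, fun x => ?_⟩
    rw [hgL x, perm_decides S.toPerm hF hD hDw (to_label W hc) (g x)]
    rfl

/-- closure of `P` under truth-table reductions with finitely many queries to a labelling -/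
theorem inP_of_table {P : PPerm} {c : List Bool → Fin k}
    (hc : ∀ v, InP {x | x ∈ P.X ∧ c x = v}) {L : Set (List Bool)} {s s' : List Bool → List Bool}
    (hs : PolyTime s) (hs' : PolyTime s') (hm : ∀ x, s x ∈ P.X) (hm' : ∀ x, s' x ∈ P.X)
    (T : Set ((Fin (t + 1) → Fin k) × (Fin (t + 1) → Fin k)))
    (hT : ∀ x, x ∈ L ↔ ((fun i : Fin (t + 1) => c (P.f^[i] (s x))),
      fun i : Fin (t + 1) => c (P.f^[i] (s' x))) ∈ T) : InP L := by
  classical
  have hb : ∀ v, ∃ b : List Bool → Bool, NPC.Poly b ∧ ∀ x, x ∈ P.X → (b x = true ↔ c x = v) := by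
    intro v
    obtain ⟨V, hV, h⟩ := hc v
    refine ⟨fun x => decide (V x = [true]), NPC.Poly.decide_eq (poly_iff.2 hV) (NPC.Poly.const _),
      fun x hx => ?_⟩
    rw [decide_eq_true_iff, ← h x]
    exact ⟨fun h => h.2, fun h => ⟨hx, h⟩⟩
  choose b hb1 hb2 using hb
  have hfi : ∀ i x, x ∈ P.X → P.f^[i] x ∈ P.X := by
    intro i x hx
    induction i with
    | zero => exact hx
    | succ i ih => rw [Function.iterate_succ_apply']; exact P.mem_f _ ih
  have hF : ∀ i {g : List Bool → List Bool}, NPC.Poly g → NPC.Poly (fun x => P.f^[i] (g x)) := by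
    intro i g hg
    induction i with
    | zero => exact hg
    | succ i ih =>
      exact ((poly_iff.2 P.polyTime_f).comp ih).congr fun x => by
        rw [Function.iterate_succ_apply']
  -- the test for one window
  have hwin : ∀ (g : List Bool → List Bool) (u : Fin (t + 1) → Fin k), NPC.Poly g →
      (∀ x, g x ∈ P.X) → ∃ e : List Bool → Bool, NPC.Poly e ∧
        ∀ x, e x = true ↔ (fun i : Fin (t + 1) => c (P.f^[i] (g x))) = u := by
    intro g u hg hgm
    have key : ∀ l : List (Fin (t + 1)), NPC.Poly (fun x => l.all fun i => b (u i) (P.f^[i] (g x))) := by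
      intro l
      induction l with
      | nil => exact (NPC.Poly.const true).congr fun x => rfl
      | cons i l ih =>
        exact (NPC.Poly.and ((hb1 (u i)).comp (hF i hg)) ih).congr fun x => rfl
    refine ⟨fun x => (List.finRange (t + 1)).all fun i => b (u i) (P.f^[i] (g x)), key _,
      fun x => ?_⟩
    rw [List.all_eq_true]
    constructor
    · intro h
      funext i
      exact (hb2 (u i) _ (hfi i _ (hgm x))).1 (h i (List.mem_finRange i))
    · intro h i _
      exact (hb2 (u i) _ (hfi i _ (hgm x))).2 (congrFun h i)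
  choose e he1 he2 using hwin
  have hsP : NPC.Poly s := poly_iff.2 hs
  have hsP' : NPC.Poly s' := poly_iff.2 hs'
  have key : ∀ l : List ((Fin (t + 1) → Fin k) × (Fin (t + 1) → Fin k)),
      NPC.Poly (fun x => l.any fun p => e s p.1 hsP hm x && e s' p.2 hsP' hm' x) := by
    intro l
    induction l with
    | nil => exact (NPC.Poly.const false).congr fun x => rfl
    | cons p l ih =>
      exact (NPC.Poly.or (NPC.Poly.and (he1 s p.1 hsP hm) (he1 s' p.2 hsP' hm')) ih).congr
        fun x => rfl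
  refine ⟨fun x => [(Finset.univ.filter (· ∈ T)).toList.any
    fun p => e s p.1 hsP hm x && e s' p.2 hsP' hm' x], polyTime_of_poly (key _), fun x => ?_⟩
  rw [hT x]
  simp only [List.cons.injEq, and_true, List.any_eq_true, Finset.mem_toList, Finset.mem_filter,
    Finset.mem_univ, true_and, Bool.and_eq_true, he2]
  constructor
  · intro h
    exact ⟨_, h, rfl, rfl⟩
  · rintro ⟨p, hp, h1, h2⟩
    rw [h1, h2]
    exact hp

theorem lcl_iff (hW : ¬ Flex W) (hC : Cyc W) :
    (∀ P : PPerm, (∃ c, IsSolution W P c) → ∃ c, IsSolution W P c ∧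
      ∀ v, InP {x | x ∈ P.X ∧ c x = v}) ↔ ∀ L, H623R2.PS.InPSPACE L → InP L := by
  constructor
  · intro h L hL
    obtain ⟨P, hP, hPL⟩ := lcl_hard W hW hC
    obtain ⟨c, hc, hc'⟩ := h P hP
    obtain ⟨s, s', h1, h2, h3, h4, T, hT⟩ := hPL c hc L hL
    exact inP_of_table hc' h1 h2 h3 h4 T hT
  · intro h P hP
    obtain ⟨c, hc, hc'⟩ := lcl_upper W hP
    exact ⟨c, hc, fun v => h _ (hc' v)⟩

end Pool.Agent.V7H67.LL
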