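import Pool.Agent.V7H67.LL.Walk
import Pool.Agent.H550R2.Iso.Space

/-!
# Polynomial-time permutations and their labellings
-/

namespace Pool.Agent.V7H67.LL

open Pool.Agent.NPC Pool.Agent.NPC.PIso

/-- A polynomial-time permutation: a set `X` of bit strings in the class `P`, and a
length-preserving bijection `f` of `X` onto itself with inverse `g`, where `f` and `g` are computable
in polynomial time. -/
structure PPerm where
  /-- the domain -/
  X : Set (List Bool)
  /-- the permutation -/
  f : List Bool → List Bool
  /-- its inverse -/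
  g : List Bool → List Bool
  inP : InP X
  polyTime_f : PolyTime f
  polyTime_g : PolyTime g
  mem_f : ∀ x ∈ X, f x ∈ X
  mem_g : ∀ x ∈ X, g x ∈ X
  g_f : ∀ x ∈ X, g (f x) = x
  f_g : ∀ x ∈ X, f (g x) = x
  length_f : ∀ x ∈ X, (f x).length = x.length

/-- `c` is an `E`-labelling of the permutation: for every `x` in the domain the label of `x` and
the label of its image `f x` form an edge of the directed graph `E`. -/
def IsLabelling {k : ℕ} (E : Fin k → Fin k → Prop) (P : PPerm) (c : List Bool → Fin k) : Prop :=
  ∀ x ∈ P.X, E (c x) (c (P.f x))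

namespace PPerm

variable (P : PPerm)

theorem exists_test : ∃ b : List Bool → Bool, NPC.Poly b ∧ ∀ x, x ∈ P.X ↔ b x = true := by
  obtain ⟨V, hV, h⟩ := P.inP
  exact ⟨fun x => decide (V x = [true]), NPC.Poly.decide_eq (poly_iff.2 hV) (NPC.Poly.const _), fun x => by
    rw [decide_eq_true_iff]; exact h x⟩

/-- the test for the domain -/
noncomputable def b : List Bool → Bool := P.exists_test.choose

theorem poly_b : NPC.Poly P.b := P.exists_test.choose_spec.1

theorem b_iff (x : List Bool) : x ∈ P.X ↔ P.b x = true := P.exists_test.choose_spec.2 x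

/-- the permutation extended by the identity -/
noncomputable def F (x : List Bool) : List Bool := bif P.b x then P.f x else x

/-- the inverse extended by the identity -/
noncomputable def G (x : List Bool) : List Bool := bif P.b x then P.g x else x

theorem poly_F : NPC.Poly P.F := NPC.Poly.cond P.poly_b (poly_iff.2 P.polyTime_f) NPC.Poly.id

theorem poly_G : NPC.Poly P.G := NPC.Poly.cond P.poly_b (poly_iff.2 P.polyTime_g) NPC.Poly.id

theorem F_mem {x : List Bool} (hx : x ∈ P.X) : P.F x = P.f x := by
  simp [F, (P.b_iff x).1 hx]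

theorem G_mem {x : List Bool} (hx : x ∈ P.X) : P.G x = P.g x := by
  simp [G, (P.b_iff x).1 hx]

theorem b_not {x : List Bool} (hx : x ∉ P.X) : P.b x = false := by
  rw [P.b_iff] at hx; simpa using hx

theorem F_not {x : List Bool} (hx : x ∉ P.X) : P.F x = x := by simp [F, P.b_not hx]

theorem G_not {x : List Bool} (hx : x ∉ P.X) : P.G x = x := by simp [G, P.b_not hx]

theorem G_F (x : List Bool) : P.G (P.F x) = x := by
  by_cases hx : x ∈ P.X
  · rw [P.F_mem hx, P.G_mem (P.mem_f x hx), P.g_f x hx]
  · rw [P.F_not hx, P.G_not hx]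

theorem F_G (x : List Bool) : P.F (P.G x) = x := by
  by_cases hx : x ∈ P.X
  · rw [P.G_mem hx, P.F_mem (P.mem_g x hx), P.f_g x hx]
  · rw [P.G_not hx, P.F_not hx]

theorem length_F (x : List Bool) : (P.F x).length = x.length := by
  by_cases hx : x ∈ P.X
  · rw [P.F_mem hx, P.length_f x hx]
  · rw [P.F_not hx]

theorem length_G (x : List Bool) : (P.G x).length = x.length := by
  have := P.length_F (P.G x)
  rw [P.F_G] at this
  exact this.symm

/-- the permutation as an equivalence -/
noncomputable def e : Equiv.Perm (List Bool) := ⟨P.F, P.G, P.G_F, P.F_G⟩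

theorem e_apply (x : List Bool) : P.e x = P.F x := rfl

theorem e_symm_apply (x : List Bool) : P.e.symm x = P.G x := rfl

theorem F_inj : Function.Injective P.F := P.e.injective

theorem mem_F {x : List Bool} (hx : x ∈ P.X) : P.F x ∈ P.X := by
  rw [P.F_mem hx]; exact P.mem_f x hx

theorem mem_G {x : List Bool} (hx : x ∈ P.X) : P.G x ∈ P.X := by
  rw [P.G_mem hx]; exact P.mem_g x hx

theorem mem_iter {x : List Bool} (hx : x ∈ P.X) (n : ℕ) : P.F^[n] x ∈ P.X := by
  induction n with
  | zero => exact hx
  | succ n ih => rw [Function.iterate_succ_apply']; exact P.mem_F ih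

theorem mem_iterG {x : List Bool} (hx : x ∈ P.X) (n : ℕ) : P.G^[n] x ∈ P.X := by
  induction n with
  | zero => exact hx
  | succ n ih => rw [Function.iterate_succ_apply']; exact P.mem_G ih

theorem length_iter (n : ℕ) (x : List Bool) : (P.F^[n] x).length = x.length := by
  induction n with
  | zero => rfl
  | succ n ih => rw [Function.iterate_succ_apply', P.length_F, ih]

theorem length_iterG (n : ℕ) (x : List Bool) : (P.G^[n] x).length = x.length := by
  induction n with
  | zero => rfl
  | succ n ih => rw [Function.iterate_succ_apply', P.length_G, ih]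

theorem iter_eq_zpow (n : ℕ) (x : List Bool) : P.F^[n] x = (P.e ^ (n : ℤ)) x := by
  rw [zpow_natCast]
  induction n with
  | zero => rfl
  | succ n ih => rw [Function.iterate_succ_apply', ih, pow_succ']; rfl

theorem iterG_eq_zpow (n : ℕ) (x : List Bool) : P.G^[n] x = (P.e ^ (-(n : ℤ))) x := by
  rw [zpow_neg, zpow_natCast]
  induction n with
  | zero => rfl
  | succ n ih =>
    rw [Function.iterate_succ_apply', ih]
    have : P.e ((P.e ^ (n + 1))⁻¹ x) = (P.e ^ n)⁻¹ x := by
      rw [pow_succ, mul_inv_rev]
      simp
    rw [← this]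
    exact P.G_F _

theorem exists_period (x : List Bool) : ∃ n, 0 < n ∧ P.F^[n] x = x := by
  obtain ⟨m, n, hmn, h⟩ := Set.Finite.exists_lt_map_eq_of_forall_mem (f := fun i => P.F^[i] x)
    (t := {l : List Bool | l.length = x.length}) (fun i => P.length_iter i x)
    (List.finite_length_eq Bool x.length)
  refine ⟨n - m, by omega, ?_⟩
  have h1 : P.F^[n] x = P.F^[m] (P.F^[n - m] x) := by
    rw [← Function.iterate_add_apply]; congr 2; omega

  rw [h1] at h
  exact ((P.F_inj.iterate m) h).symm

theorem isPeriodicPt (x : List Bool) : x ∈ Function.periodicPts P.F := by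
  obtain ⟨n, hn, h⟩ := P.exists_period x
  exact ⟨n, hn, h⟩

/-- the length of the cycle -/
noncomputable def N (x : List Bool) : ℕ := Function.minimalPeriod P.F x

theorem N_pos (x : List Bool) : 0 < P.N x := Function.minimalPeriod_pos_of_mem_periodicPts (P.isPeriodicPt x)

theorem iter_N (x : List Bool) : P.F^[P.N x] x = x := Function.iterate_minimalPeriod

theorem iter_ne {x : List Bool} {n : ℕ} (h0 : 0 < n) (hn : n < P.N x) : P.F^[n] x ≠ x := by
  intro h
  have h1 : Function.IsPeriodicPt P.F n x := h
  have := h1.minimalPeriod_le h0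
  unfold N at hn
  omega

end PPerm

end Pool.Agent.V7H67.LL
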