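import Mathlib

/-!
# Closed walks in finite directed graphs
-/

namespace Pool.Agent.V7H67.LL

variable {V : Type*} {E : V → V → Prop}

/-- There is a walk with `n` edges from `u` to `v` in the directed graph `E`. -/
def Walk (E : V → V → Prop) (n : ℕ) (u v : V) : Prop :=
  ∃ w : ℕ → V, w 0 = u ∧ w n = v ∧ ∀ i < n, E (w i) (w (i + 1))

/-- Some vertex lies on closed walks of two consecutive lengths (length `0` is allowed). -/
def Flexible (E : V → V → Prop) : Prop := ∃ v n, Walk E n v v ∧ Walk E (n + 1) v v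

theorem Walk.zero (v : V) : Walk E 0 v v := ⟨fun _ => v, rfl, rfl, fun i hi => by omega⟩

theorem Walk.add {m n : ℕ} {u v w : V} (h : Walk E m u v) (h' : Walk E n v w) :
    Walk E (m + n) u w := by
  obtain ⟨a, a0, am, ha⟩ := h
  obtain ⟨b, b0, bn, hb⟩ := h'
  refine ⟨fun i => if i < m then a i else b (i - m), ?_, ?_, ?_⟩
  · by_cases hm : 0 < m
    · simp [hm, a0]
    · have : m = 0 := by omega
      subst this
      simp [b0, ← am, a0]
  · simp [bn]
  · intro i hi
    by_cases h1 : i + 1 < m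
    · have h2 : i < m := by omega
      simp only [h1, h2, if_true]
      exact ha i h2
    · by_cases h2 : i < m
      · have h3 : i + 1 = m := by omega
        simp only [h2, h3, if_true, lt_irrefl, if_false, Nat.sub_self, b0]
        have := ha i h2
        rw [h3, am] at this
        exact this
      · simp only [h1, h2, if_false]
        have := hb (i - m) (by omega)
        rwa [show i - m + 1 = i + 1 - m by omega] at this

theorem Walk.mul {n : ℕ} {v : V} (h : Walk E n v v) (q : ℕ) : Walk E (n * q) v v := by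
  induction q with
  | zero => exact Walk.zero v
  | succ q ih => exact ih.add h

theorem Walk.of_iterate {X : Type*} {f : X → X} {c : X → V} {S : Set X}
    (hS : ∀ x ∈ S, f x ∈ S) (hc : ∀ x ∈ S, E (c x) (c (f x))) {x : X} (hx : x ∈ S) (n : ℕ) :
    Walk E n (c x) (c (f^[n] x)) := by
  have hmem : ∀ i, f^[i] x ∈ S := by
    intro i
    induction i with
    | zero => exact hx
    | succ i ih => rw [Function.iterate_succ_apply']; exact hS _ ih
  refine ⟨fun i => c (f^[i] x), rfl, rfl, fun i _ => ?_⟩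
  simp only [Function.iterate_succ_apply']
  exact hc _ (hmem i)

theorem Flexible.exists_pos (h : Flexible E) :
    ∃ v n, 0 < n ∧ Walk E n v v ∧ Walk E (n + 1) v v := by
  obtain ⟨v, n, h1, h2⟩ := h
  rcases Nat.eq_zero_or_pos n with rfl | hn
  · exact ⟨v, 1, one_pos, h2, h2.add h2⟩
  · exact ⟨v, n, hn, h1, h2⟩

/-- a common length of closed walks -/
theorem exists_D [Fintype V] (E : V → V → Prop) :
    ∃ D, 0 < D ∧ ∀ v, (∃ n, 0 < n ∧ Walk E n v v) → Walk E D v v := by
  classical
  have h : ∀ v : V, ∃ l, 0 < l ∧ ((∃ n, 0 < n ∧ Walk E n v v) → Walk E l v v) := by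
    intro v
    by_cases hv : ∃ n, 0 < n ∧ Walk E n v v
    · obtain ⟨n, hn, hw⟩ := hv
      exact ⟨n, hn, fun _ => hw⟩
    · exact ⟨1, one_pos, fun h => absurd h hv⟩
  choose l hl hw using h
  refine ⟨∏ v, l v, Finset.prod_pos fun v _ => hl v, fun v hv => ?_⟩
  obtain ⟨q, hq⟩ := Finset.dvd_prod_of_mem l (Finset.mem_univ v)
  rw [hq]
  exact (hw v hv).mul q

/-- in a graph that is not flexible, the residue of the length of a walk between two vertices on a
common cycle is determined -/
theorem not_both (hF : ¬ Flexible E) {D n0 n1 n' : ℕ} {u w : V} (hD0 : 0 < D)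
    (hD : Walk E D u u) (h1 : Walk E n1 u w) (h' : Walk E n' w u)
    (e0 : (n0 + n') % D = 0) (e0' : n0 % D = 0) (e1 : n1 % D = 1 % D) : False := by
  rcases Nat.lt_or_ge 1 D with hD1 | hD1
  · have hn' : n' % D = 0 := by
      rw [Nat.add_mod, e0', zero_add, Nat.mod_mod] at e0
      exact e0
    have h2 : (n1 + n') % D = 1 := by
      rw [Nat.add_mod, e1, hn', add_zero, Nat.mod_mod, Nat.mod_eq_of_lt hD1]
    have h3 := Nat.div_add_mod (n1 + n') D
    rw [h2] at h3
    refine hF ⟨u, D * ((n1 + n') / D), hD.mul _, ?_⟩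
    rw [h3]
    exact h1.add h'
  · have : D = 1 := by omega
    subst this
    exact hF ⟨u, 0, Walk.zero u, hD⟩

section Explicit

theorem closed_step {w : ℕ → V} {n : ℕ} (hn : 0 < n) (hc : w n = w 0)
    (hw : ∀ i < n, E (w i) (w (i + 1))) (i : ℕ) : E (w (i % n)) (w ((i + 1) % n)) := by
  have h1 : i % n < n := Nat.mod_lt _ hn
  have h2 := hw _ h1
  by_cases h3 : i % n + 1 = n
  · have h4 : (i + 1) % n = 0 := by
      rw [Nat.add_mod, ← Nat.add_mod_right]
      conv_lhs => rw [← Nat.mod_add_mod]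
      have : (i % n + 1) % n = 0 := by rw [h3]; exact Nat.mod_self n
      rw [← Nat.mod_add_mod] at this
      simpa [Nat.add_mod] using this
    rw [h4, ← hc]
    rw [h3] at h2
    exact h2
  · have h4 : (i + 1) % n = i % n + 1 := by
      rw [Nat.add_mod]
      by_cases hn1 : n = 1
      · subst hn1; omega
      · rw [Nat.mod_eq_of_lt (show 1 < n by omega), Nat.mod_eq_of_lt (by omega)]
    rw [h4]
    exact h2

/-- the explicit closed walk of length `g` made of copies of two closed walks of consecutive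
lengths `n + 1` and `n` -/
def wk (n : ℕ) (w1 w2 : ℕ → V) (g i : ℕ) : V :=
  if i < (g % n) * (n + 1) then w2 (i % (n + 1)) else w1 ((i - (g % n) * (n + 1)) % n)

variable {n : ℕ} {w1 w2 : ℕ → V} {v : V}

theorem wk_zero (h10 : w1 0 = v) (h20 : w2 0 = v) (g : ℕ) : wk n w1 w2 g 0 = v := by
  unfold wk
  split_ifs with h
  · simp [h20]
  · simp [h10]

theorem le_of_big {g : ℕ} (hn : 0 < n) (hg : n * (n + 1) ≤ g) : (g % n) * (n + 1) ≤ g :=
  (Nat.mul_le_mul_right _ (Nat.mod_lt _ hn).le).trans hg

theorem wk_end (h10 : w1 0 = v) {g : ℕ} (hn : 0 < n) (hg : n * (n + 1) ≤ g) :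
    wk n w1 w2 g g = v := by
  have h1 := le_of_big hn hg
  unfold wk
  rw [if_neg (by omega)]
  have h2 : (g - (g % n) * (n + 1)) % n = 0 := by
    have h3 := Nat.div_add_mod g n
    have h4 : g - (g % n) * (n + 1) = n * (g / n) - n * (g % n) := by
      have : (g % n) * (n + 1) = n * (g % n) + g % n := by ring
      omega
    rw [h4, ← Nat.mul_sub, Nat.mul_mod_right]
  rw [h2, h10]

theorem wk_step (h10 : w1 0 = v) (h1n : w1 n = v) (hw1 : ∀ i < n, E (w1 i) (w1 (i + 1)))
    (h20 : w2 0 = v) (h2n : w2 (n + 1) = v) (hw2 : ∀ i < n + 1, E (w2 i) (w2 (i + 1)))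
    (hn : 0 < n) (g i : ℕ) : E (wk n w1 w2 g i) (wk n w1 w2 g (i + 1)) := by
  unfold wk
  set B := (g % n) * (n + 1) with hB
  by_cases h1 : i + 1 < B
  · rw [if_pos h1, if_pos (by omega)]
    exact closed_step (Nat.succ_pos n) (h2n.trans h20.symm) hw2 i
  · rw [if_neg h1]
    by_cases h2 : i < B
    · rw [if_pos h2]
      have h3 : i + 1 = B := by omega
      have h4 := closed_step (Nat.succ_pos n) (h2n.trans h20.symm) hw2 i
      have h5 : (i + 1) % (n + 1) = 0 := by rw [h3, hB, Nat.mul_mod_left]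
      rw [h5, h20] at h4
      rw [h3, Nat.sub_self, Nat.zero_mod, h10]
      exact h4
    · rw [if_neg h2, show i + 1 - B = (i - B) + 1 by omega]
      exact closed_step hn (h1n.trans h10.symm) hw1 _

end Explicit

end Pool.Agent.V7H67.LL
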